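import Pool.Agent.H281.A54.Space

open Filter Topology

namespace Pool.Agent.H281.A54

variable {𝕜 : Type} [RCLike 𝕜]

/-- uniform smoothness, in the form used below -/
def USm (𝕜 : Type) [RCLike 𝕜] (X : Type) [NormedAddCommGroup X] [NormedSpace 𝕜 X] : Prop :=
  ∀ ε : ℝ, 0 < ε → ∃ η : ℝ, 0 < η ∧ ∀ x₀ : X, ‖x₀‖ = 1 → ∀ F G : X →L[𝕜] 𝕜,
    ‖F‖ ≤ 1 → ‖G‖ ≤ 1 → 1 - η ≤ RCLike.re (F x₀) → 1 - η ≤ RCLike.re (G x₀) → ‖F - G‖ ≤ ε

theorem opNorm_le_of_unit {X Y : Type*} [NormedAddCommGroup X] [NormedSpace 𝕜 X]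
    [NormedAddCommGroup Y] [NormedSpace 𝕜 Y] (A : X →L[𝕜] Y) {C : ℝ} (hC : 0 ≤ C)
    (h : ∀ x, ‖x‖ ≤ 1 → ‖A x‖ ≤ C) : ‖A‖ ≤ C := by
  apply ContinuousLinearMap.opNorm_le_bound _ hC
  intro x
  by_cases hx : x = 0
  · simp [hx]
  · have hx0 : 0 < ‖x‖ := norm_pos_iff.mpr hx
    have h1 : ‖((‖x‖ : 𝕜)⁻¹ • x)‖ = 1 := by
      rw [norm_smul, norm_inv, RCLike.norm_ofReal, abs_norm, inv_mul_cancel₀ hx0.ne']
    have h2 := h _ h1.le
    rw [map_smul, norm_smul, norm_inv, RCLike.norm_ofReal, abs_norm, inv_mul_le_iff₀ hx0] at h2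
    linarith

theorem isCompactOperator_smulRight {X Y : Type*} [NormedAddCommGroup X] [NormedSpace 𝕜 X]
    [NormedAddCommGroup Y] [NormedSpace 𝕜 Y] (g : X →L[𝕜] 𝕜) (u : Y) :
    IsCompactOperator (g.smulRight u : X →L[𝕜] Y) := by
  have h1 : IsCompactOperator (g : X → 𝕜) := isCompactOperator_of_locallyCompactSpace_dom g
  have h2 : IsCompactOperator ((fun c : 𝕜 => c • u) ∘ (g : X → 𝕜)) :=
    h1.continuous_comp (by fun_prop)
  exact h2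

theorem exists_QQ_approx {X : Type*} [NormedAddCommGroup X] [NormedSpace 𝕜 X]
    (T : X →L[𝕜] YY 𝕜) (hT : IsCompactOperator T) {δ : ℝ} (hδ : 0 < δ) :
    ∃ m, ‖(QQ m).comp T - T‖ ≤ δ := by
  have h1 : IsCompact (closure (T '' Metric.closedBall (0 : X) 1)) :=
    IsCompactOperator.isCompact_closure_image_closedBall (f := (T : X →ₗ[𝕜] YY 𝕜)) hT 1
  have h2 := h1.totallyBounded
  rw [Metric.totallyBounded_iff] at h2
  obtain ⟨t, htf, ht⟩ := h2 (δ / 3) (by positivity)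
  have h3 : ∀ᶠ m in atTop, ∀ y ∈ t, ‖QQ m y - y‖ < δ / 3 := by
    rw [Filter.eventually_all_finite htf]
    intro y _
    have h4 := QQ_tendsto y
    rw [Metric.tendsto_atTop] at h4
    obtain ⟨N, hN⟩ := h4 (δ / 3) (by positivity)
    filter_upwards [eventually_ge_atTop N] with m hm
    have := hN m hm
    rwa [dist_eq_norm] at this
  obtain ⟨m, hm⟩ := h3.exists
  refine ⟨m, ?_⟩
  apply opNorm_le_of_unit _ hδ.le
  intro x hx
  have hx' : T x ∈ closure (T '' Metric.closedBall (0 : X) 1) :=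
    subset_closure ⟨x, by simpa using hx, rfl⟩
  have h5 := ht hx'
  simp only [Set.mem_iUnion, exists_prop] at h5
  obtain ⟨y, hy, hxy⟩ := h5
  rw [Metric.mem_ball, dist_eq_norm] at hxy
  have e1 : ((QQ m).comp T - T) x = QQ m (T x - y) + (QQ m y - y) - (T x - y) := by
    simp only [sub_apply, ContinuousLinearMap.comp_apply, map_sub]
    abel
  rw [e1]
  calc ‖QQ m (T x - y) + (QQ m y - y) - (T x - y)‖
      ≤ ‖QQ m (T x - y) + (QQ m y - y)‖ + ‖T x - y‖ := norm_sub_le _ _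
    _ ≤ ‖QQ m (T x - y)‖ + ‖QQ m y - y‖ + ‖T x - y‖ := by gcongr; exact norm_add_le _ _
    _ ≤ ‖T x - y‖ + ‖QQ m y - y‖ + ‖T x - y‖ := by gcongr; exact norm_QQ_apply_le m _
    _ ≤ δ := by have := hm y hy; linarith

/-- the functional `phi` on the space `YY` -/
noncomputable def phiL (m i : ℕ) : YY 𝕜 →L[𝕜] 𝕜 :=
  ∑ k : Fin m, (TopologicalSpace.denseSeq (Fin m → 𝕜) i) k • coordL (k : ℕ)

theorem phiL_apply (m i : ℕ) (y : YY 𝕜) : phiL m i y = phi m i (fn y) := by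
  simp [phiL, phi, coordL_apply]

/-- unit vectors -/
noncomputable def ev (k : ℕ) : YY 𝕜 :=
  mkFin (k + 1) (Pi.single k 1) (fun j hj => by
    rw [Pi.single_apply, if_neg (by omega)])

theorem fn_ev (k : ℕ) : fn (ev k : YY 𝕜) = Pi.single k 1 := rfl

theorem coordL_ev (j k : ℕ) : coordL j (ev k : YY 𝕜) = if j = k then 1 else 0 := by
  rw [coordL_apply, fn_ev, Pi.single_apply]

theorem mk_trunc_eq_sum (m : ℕ) (z : ℕ → 𝕜) :
    mkFin m (trunc m z) (trunc_zero_of_le m z) = ∑ k : Fin m, z k • (ev (k : ℕ) : YY 𝕜) := by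
  apply fn_ext
  funext j
  rw [fn_mkFin, ← coordL_apply j, map_sum]
  by_cases hj : j < m
  · rw [Finset.sum_eq_single (⟨j, hj⟩ : Fin m)]
    · rw [map_smul, coordL_ev]; simp [trunc, hj]
    · intro b _ hb
      have : j ≠ (b : ℕ) := fun h => hb (Fin.ext h.symm)
      rw [map_smul, coordL_ev, if_neg this, smul_zero]
    · intro h; exact absurd (Finset.mem_univ _) h
  · rw [Finset.sum_eq_zero]
    · simp [trunc, hj]
    · intro b _
      have : j ≠ (b : ℕ) := fun h => hj (h ▸ b.2)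
      rw [map_smul, coordL_ev, if_neg this, smul_zero]

theorem psi_zero (n : ℕ) : psi n (0 : ℕ → 𝕜) = 0 := by
  have h := psi_smul n (0 : 𝕜) (0 : ℕ → 𝕜)
  rw [zero_smul, zero_mul] at h
  exact h

theorem sp_zero' (n : ℕ) : sp n (0 : ℕ → 𝕜) = 0 := by
  have h := sp_smul n (0 : 𝕜) (0 : ℕ → 𝕜)
  rw [zero_smul, norm_zero, zero_mul] at h
  exact h

theorem sa_zero' (n : ℕ) : sa n (0 : ℕ → 𝕜) = 0 := by
  have h := sa_smul n (0 : 𝕜) (0 : ℕ → 𝕜)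
  rw [zero_smul, norm_zero, zero_mul] at h
  exact h

theorem sb_zero' (n : ℕ) : sb n (0 : ℕ → 𝕜) = 0 := by
  have h := sb_smul n (0 : 𝕜) (0 : ℕ → 𝕜)
  rw [zero_smul, norm_zero, zero_mul] at h
  exact h

theorem norm_ev_le (k : ℕ) : ‖(ev k : YY 𝕜)‖ ≤ 1 := by
  have h0 : ∀ j, k + 1 ≤ j → fn (ev k : YY 𝕜) j = 0 := by
    intro j hj
    rw [fn_ev, Pi.single_apply, if_neg (by omega)]
  have hloc : ∀ j < k, (Pi.single k 1 : ℕ → 𝕜) j = (0 : ℕ → 𝕜) j := by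
    intro j hj
    rw [Pi.single_apply, if_neg (by omega), Pi.zero_apply]
  have ha : sa k (Pi.single k 1 : ℕ → 𝕜) = 0 := by
    rw [(sab_local k _ _ hloc).1, sa_zero']
  have hb : sb k (Pi.single k 1 : ℕ → 𝕜) = 0 := by
    rw [(sab_local k _ _ hloc).2, sb_zero']
  have hpsi : psi k (Pi.single k 1 : ℕ → 𝕜) = 0 := by
    rw [psi_local k _ _ hloc, psi_zero]
  rw [norm_of_fin _ (k + 1) h0, fn_ev]
  rcases h : code k with j | mi
  · apply max_le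
    · rw [sa_succ_w h, ha, Pi.single_eq_same, norm_one]
      have h1 : (1 / ((j : ℝ) + 1)) ^ 2 ≤ 1 := by
        rw [div_pow, one_pow, div_le_one (by positivity)]
        have : (0 : ℝ) ≤ j := Nat.cast_nonneg j
        nlinarith
      have h2 : (0:ℝ) ^ 2 + (1 / ((j : ℝ) + 1)) ^ 2 * 1 ^ 2 ≤ 1 := by linarith
      calc Real.sqrt ((0:ℝ) ^ 2 + (1 / ((j : ℝ) + 1)) ^ 2 * 1 ^ 2) ≤ Real.sqrt 1 :=
            Real.sqrt_le_sqrt h2
        _ = 1 := Real.sqrt_one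
    · rw [sb_succ_w h, hb, Pi.single_eq_same, norm_one]
      exact max_le zero_le_one le_rfl
  · apply max_le
    · rw [sa_succ_v h, ha, hpsi, Pi.single_eq_same, norm_one, norm_zero, zero_add]
      exact max_le zero_le_one le_rfl
    · rw [sb_succ_v h, hb]; exact zero_le_one

theorem exists_phi (m : ℕ) (x : YY 𝕜) (hx : ∀ k, m ≤ k → fn x k = 0) {δ : ℝ} (hδ : 0 < δ)
    (hδ1 : δ ≤ 1) :
    ∃ i, (∀ z : ℕ → 𝕜, ‖phi m i z‖ ≤ sp m z) ∧ (1 - 2 * δ) * ‖x‖ ≤ ‖phi m i (fn x)‖ := by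
  obtain ⟨g, hg1, hg2⟩ := exists_dual_vector'' 𝕜 x
  let c : Fin m → 𝕜 := fun k => ((1 - δ : ℝ) : 𝕜) * g (ev (k : ℕ))
  obtain ⟨i, hi⟩ := (TopologicalSpace.denseRange_denseSeq (Fin m → 𝕜)).exists_dist_lt c
    (show 0 < δ / (m + 1) by positivity)
  refine ⟨i, ?_⟩
  set d := TopologicalSpace.denseSeq (Fin m → 𝕜) i with hd
  have hdc : ∀ k, ‖d k - c k‖ ≤ δ / (m + 1) := by
    intro k
    have h1 : ‖(d - c) k‖ ≤ ‖d - c‖ := norm_le_pi_norm _ k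
    have h2 : ‖d - c‖ < δ / (m + 1) := by rw [← dist_eq_norm, dist_comm]; exact hi
    exact (h1.trans h2.le)
  -- error estimate
  have key : ∀ z : ℕ → 𝕜,
      ‖phi m i z - ((1 - δ : ℝ) : 𝕜) * g (mkFin m (trunc m z) (trunc_zero_of_le m z))‖
        ≤ δ * sp m z := by
    intro z
    have e1 : phi m i z - ((1 - δ : ℝ) : 𝕜) * g (mkFin m (trunc m z) (trunc_zero_of_le m z))
        = ∑ k : Fin m, (d k - c k) * z k := by
      rw [mk_trunc_eq_sum, map_sum, Finset.mul_sum, phi, ← Finset.sum_sub_distrib]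
      apply Finset.sum_congr rfl
      intro k _
      rw [map_smul, smul_eq_mul]
      simp only [c, hd]
      ring
    rw [e1]
    calc ‖∑ k : Fin m, (d k - c k) * z k‖ ≤ ∑ k : Fin m, ‖(d k - c k) * z k‖ := norm_sum_le _ _
      _ ≤ ∑ _k : Fin m, δ / (m + 1) * sp m z := by
          apply Finset.sum_le_sum
          intro k _
          rw [norm_mul]
          exact mul_le_mul (hdc k) (coord_le k.2 z) (norm_nonneg _) (by positivity)
      _ = (m : ℝ) * (δ / (m + 1) * sp m z) := by simp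
      _ ≤ δ * sp m z := by
          have h3 : (m : ℝ) * (δ / (m + 1)) ≤ δ := by
            rw [← mul_div_assoc, div_le_iff₀ (by positivity)]
            nlinarith
          calc (m : ℝ) * (δ / (m + 1) * sp m z) = (m : ℝ) * (δ / (m + 1)) * sp m z := by ring
            _ ≤ δ * sp m z := mul_le_mul_of_nonneg_right h3 (sp_nonneg _ _)
  have hnorm : ∀ z : ℕ → 𝕜, ‖mkFin m (trunc m z) (trunc_zero_of_le m z)‖ = sp m z := by
    intro z
    rw [norm_of_fin _ m (by rw [fn_mkFin]; exact trunc_zero_of_le m z), fn_mkFin,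
      sp_trunc_of_le le_rfl]
  have hnn : ‖((1 - δ : ℝ) : 𝕜)‖ = 1 - δ := by
    rw [RCLike.norm_ofReal, abs_of_nonneg (by linarith)]
  constructor
  · intro z
    have h4 := key z
    have h5 : ‖((1 - δ : ℝ) : 𝕜) * g (mkFin m (trunc m z) (trunc_zero_of_le m z))‖
        ≤ (1 - δ) * sp m z := by
      rw [norm_mul, hnn]
      apply mul_le_mul_of_nonneg_left _ (by linarith)
      calc ‖g (mkFin m (trunc m z) (trunc_zero_of_le m z))‖
          ≤ ‖g‖ * ‖mkFin m (trunc m z) (trunc_zero_of_le m z)‖ := g.le_opNorm _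
        _ ≤ 1 * sp m z := by rw [hnorm]; gcongr; exact sp_nonneg _ _
        _ = sp m z := one_mul _
    calc ‖phi m i z‖ = ‖(phi m i z - ((1 - δ : ℝ) : 𝕜) *
          g (mkFin m (trunc m z) (trunc_zero_of_le m z))) + ((1 - δ : ℝ) : 𝕜) *
          g (mkFin m (trunc m z) (trunc_zero_of_le m z))‖ := by ring_nf
      _ ≤ δ * sp m z + (1 - δ) * sp m z := (norm_add_le _ _).trans (add_le_add h4 h5)
      _ = sp m z := by ring
  · have h6 := key (fn x)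
    have h7 : mkFin m (trunc m (fn x)) (trunc_zero_of_le m (fn x)) = x := by
      apply fn_ext
      rw [fn_mkFin]
      funext k
      by_cases hk : k < m
      · simp [trunc, hk]
      · simp [trunc, hk, hx k (not_lt.mp hk)]
    have h8 : sp m (fn x) = ‖x‖ := (norm_of_fin x m hx).symm
    rw [h7, hg2, h8] at h6
    have h9 : ‖((1 - δ : ℝ) : 𝕜) * ((‖x‖ : ℝ) : 𝕜)‖ = (1 - δ) * ‖x‖ := by
      rw [norm_mul, hnn, RCLike.norm_ofReal, abs_norm]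
    have h10 : ‖((1 - δ : ℝ) : 𝕜) * ((‖x‖ : ℝ) : 𝕜)‖ ≤ ‖phi m i (fn x)‖ +
        ‖phi m i (fn x) - ((1 - δ : ℝ) : 𝕜) * ((‖x‖ : ℝ) : 𝕜)‖ := by
      have := norm_sub_le (phi m i (fn x))
        (phi m i (fn x) - ((1 - δ : ℝ) : 𝕜) * ((‖x‖ : ℝ) : 𝕜))
      simpa using this
    rw [h9] at h10
    nlinarith

theorem sp_succ_v {n : ℕ} {mi : ℕ × ℕ} (h : code n = Sum.inr mi) (y : ℕ → 𝕜) :
    sp (n + 1) y = max (sp n y) (‖psi n y‖ + ‖y n‖) := by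
  rw [sp, sa_succ_v h, sb_succ_v h, sp, max_right_comm]

theorem norm_flat {m i n : ℕ} (hmn : m ≤ n) (hc : code n = Sum.inr (m, i))
    (hadm : ∀ z : ℕ → 𝕜, ‖phi m i z‖ ≤ sp m z) (y : YY 𝕜)
    (h1 : ∀ k, m ≤ k → k < n → fn y k = 0) (h2 : ∀ k, n + 1 ≤ k → fn y k = 0) :
    ‖y‖ = max (sp m (fn y)) (‖phi m i (fn y)‖ + ‖fn y n‖) := by
  rw [norm_of_fin y (n + 1) h2, sp_succ_v hc, sp_eq_of_zero hmn _ h1]
  congr 2
  rw [psi_eq hc hmn (fun z => (hadm z).trans (sp_mono z hmn))]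

theorem aux_decomp {Y : Type*} [NormedAddCommGroup Y] [NormedSpace 𝕜 Y] (a b c d : Y) (κ : ℝ) :
    ((1 - κ : ℝ) : 𝕜) • (a + b) + c - d
      = (a - d) - ((κ : ℝ) : 𝕜) • a + ((1 - κ : ℝ) : 𝕜) • b + c := by
  rw [RCLike.ofReal_sub, RCLike.ofReal_one, smul_add, sub_smul, one_smul]
  abel

/-- pointwise Bishop-Phelps-Bollobas property for compact operators into `YY` -/
theorem pk_of_usm {X : Type} [NormedAddCommGroup X] [NormedSpace 𝕜 X] (hX : USm 𝕜 X)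
    (ε : ℝ) (hε : 0 < ε) : ∃ η : ℝ, 0 < η ∧ ∀ T : X →L[𝕜] YY 𝕜, IsCompactOperator T →
      ‖T‖ = 1 → ∀ x₀ : X, ‖x₀‖ = 1 → 1 - η < ‖T x₀‖ →
      ∃ S : X →L[𝕜] YY 𝕜, IsCompactOperator S ∧ ‖S‖ = 1 ∧ ‖S x₀‖ = 1 ∧ ‖S - T‖ < ε := by
  -- parameters
  set e : ℝ := min (ε / 10) (1 / 4) with he
  have he0 : 0 < e := lt_min (by positivity) (by norm_num)
  have he1 : e ≤ 1 / 4 := min_le_right _ _
  have he2 : 10 * e ≤ ε := by
    have : e ≤ ε / 10 := min_le_left _ _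
    linarith
  obtain ⟨η₀, hη₀, hsm⟩ := hX e he0
  set η : ℝ := min (η₀ / 4) (1 / 8) with hη
  have hη1 : 0 < η := lt_min (by positivity) (by norm_num)
  have hη2 : 4 * η ≤ η₀ := by
    have : η ≤ η₀ / 4 := min_le_left _ _
    linarith
  have hη3 : η ≤ 1 / 8 := min_le_right _ _
  refine ⟨η, hη1, fun T hT hT1 x₀ hx₀ hTx => ?_⟩
  -- the truncation
  set δ : ℝ := min e η with hδ
  have hδ0 : 0 < δ := lt_min he0 hη1
  have hδe : δ ≤ e := min_le_left _ _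
  have hδη : δ ≤ η := min_le_right _ _
  obtain ⟨m, hm⟩ := exists_QQ_approx T hT hδ0
  set T₁ : X →L[𝕜] YY 𝕜 := (QQ m).comp T with hT₁
  have hT₁c : IsCompactOperator T₁ := hT.clm_comp (QQ m)
  have hT₁n : ∀ x, ‖T₁ x‖ ≤ ‖x‖ := by
    intro x
    calc ‖T₁ x‖ ≤ ‖T x‖ := norm_QQ_apply_le m _
      _ ≤ ‖T‖ * ‖x‖ := T.le_opNorm x
      _ = ‖x‖ := by rw [hT1, one_mul]
  have hT₁0 : ∀ x k, m ≤ k → fn (T₁ x) k = 0 := by
    intro x k hk
    rw [hT₁, ContinuousLinearMap.comp_apply, fn_QQ]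
    exact trunc_zero_of_le m _ k hk
  have hT₁x : 1 - 2 * η ≤ ‖T₁ x₀‖ := by
    have h1 : ‖(T₁ - T) x₀‖ ≤ δ := by
      calc ‖(T₁ - T) x₀‖ ≤ ‖T₁ - T‖ * ‖x₀‖ := (T₁ - T).le_opNorm x₀
        _ ≤ δ := by rw [hx₀, mul_one]; exact hm
    have h2 : ‖T x₀‖ ≤ ‖T₁ x₀‖ + ‖(T₁ - T) x₀‖ := by
      have := norm_sub_le (T₁ x₀) ((T₁ - T) x₀)
      simpa using this
    linarith
  -- the functional
  obtain ⟨i, hadm, hbig⟩ := exists_phi m (T₁ x₀) (hT₁0 x₀) (show 0 < η / 2 by positivity)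
    (by linarith)
  set w : 𝕜 := phi m i (fn (T₁ x₀)) with hw
  have hwn : 1 - 3 * η ≤ ‖w‖ := by
    have h3 : (1 - 2 * (η / 2)) * (1 - 2 * η) ≤ (1 - 2 * (η / 2)) * ‖T₁ x₀‖ :=
      mul_le_mul_of_nonneg_left hT₁x (by linarith)
    nlinarith
  have hw2 : 1 / 2 ≤ ‖w‖ := by linarith
  have hw0 : w ≠ 0 := by
    intro h0
    rw [h0, norm_zero] at hw2
    linarith
  have hphin : ∀ y : YY 𝕜, ‖phiL m i y‖ ≤ ‖y‖ := by
    intro y
    rw [phiL_apply]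
    exact (hadm _).trans (sp_le_norm y m)
  set ψ : X →L[𝕜] 𝕜 := (phiL m i).comp T₁ with hψ
  have hψx : ψ x₀ = w := by rw [hψ, ContinuousLinearMap.comp_apply, phiL_apply]
  have hψn : ∀ x, ‖ψ x‖ ≤ ‖x‖ := fun x => (hphin _).trans (hT₁n x)
  obtain ⟨f, hf1, hf2⟩ := exists_dual_vector'' 𝕜 x₀
  rw [hx₀, RCLike.ofReal_one] at hf2
  -- the phase
  set θ : 𝕜 := (‖w‖ : 𝕜) * w⁻¹ with hθ
  have hθn : ‖θ‖ = 1 := by
    rw [hθ, norm_mul, norm_inv, RCLike.norm_ofReal, abs_norm, mul_inv_cancel₀]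
    exact norm_ne_zero_iff.mpr hw0
  have hθ0 : θ ≠ 0 := by
    intro h0; rw [h0, norm_zero] at hθn; exact zero_ne_one hθn
  have hθw : θ * w = (‖w‖ : 𝕜) := by rw [hθ, mul_assoc, inv_mul_cancel₀ hw0, mul_one]
  have hclose : ‖θ • ψ - f‖ ≤ e := by
    apply hsm x₀ hx₀
    · rw [norm_smul, hθn, one_mul]
      exact opNorm_le_of_unit _ zero_le_one (fun x hx => (hψn x).trans hx)
    · exact hf1
    · rw [smul_apply, hψx, smul_eq_mul, hθw, RCLike.ofReal_re]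
      linarith
    · rw [hf2, RCLike.one_re]; linarith
  set g : X →L[𝕜] 𝕜 := θ⁻¹ • f - ψ with hg
  have hgn : ∀ x, ‖g x‖ ≤ e * ‖x‖ := by
    intro x
    have e1 : g x = -(θ⁻¹ * ((θ • ψ - f) x)) := by
      simp only [hg, sub_apply, smul_apply, smul_eq_mul]
      field_simp
      ring
    rw [e1, norm_neg, norm_mul, norm_inv, hθn, inv_one, one_mul]
    calc ‖(θ • ψ - f) x‖ ≤ ‖θ • ψ - f‖ * ‖x‖ := ContinuousLinearMap.le_opNorm _ _
      _ ≤ e * ‖x‖ := by gcongr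
  set u : YY 𝕜 := w⁻¹ • T₁ x₀ with hu
  have hun : ‖u‖ ≤ 2 := by
    rw [hu, norm_smul, norm_inv]
    have h4 : ‖w‖⁻¹ ≤ 2 := by
      rw [inv_le_comm₀ (by linarith) (by norm_num)]
      linarith
    have h5 : ‖T₁ x₀‖ ≤ 1 := by rw [← hx₀]; exact hT₁n x₀
    calc ‖w‖⁻¹ * ‖T₁ x₀‖ ≤ 2 * 1 := mul_le_mul h4 h5 (norm_nonneg _) (by norm_num)
      _ = 2 := by norm_num
  have hu0 : ∀ k, m ≤ k → fn u k = 0 := by
    intro k hk
    rw [hu, fn_smul, Pi.smul_apply, hT₁0 x₀ k hk, smul_zero]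
  have hψu : phi m i (fn u) = 1 := by
    rw [hu, fn_smul, phi_smul, ← hw, inv_mul_cancel₀ hw0]
  obtain ⟨n, hmn, hcn⟩ := code_spec (Sum.inr (m, i)) m
  -- the operator
  set κ : ℝ := 2 * e with hκ
  have hκ0 : 0 < κ := by positivity
  have hκ1 : κ ≤ 1 / 2 := by linarith
  set S₀ : X →L[𝕜] YY 𝕜 := T₁ + g.smulRight u with hS₀
  set S : X →L[𝕜] YY 𝕜 := ((1 - κ : ℝ) : 𝕜) • S₀ + ((κ : ℝ) : 𝕜) • f.smulRight (ev n) with hS
  have hS₀x : ∀ x, S₀ x = T₁ x + g x • u := fun x => rfl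
  have hSx : ∀ x, S x = ((1 - κ : ℝ) : 𝕜) • S₀ x + ((κ : ℝ) : 𝕜) • f x • ev n := fun x => rfl
  have hS₀0 : ∀ x k, m ≤ k → fn (S₀ x) k = 0 := by
    intro x k hk
    rw [hS₀x, fn_add, fn_smul, Pi.add_apply, Pi.smul_apply, hT₁0 x k hk, hu0 k hk, smul_zero,
      add_zero]
  have hfnS : ∀ x k, fn (S x) k = ((1 - κ : ℝ) : 𝕜) * fn (S₀ x) k
      + (if k = n then ((κ : ℝ) : 𝕜) * f x else 0) := by
    intro x k
    rw [hSx, fn_add, fn_smul, fn_smul, fn_smul, fn_ev]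
    simp only [Pi.add_apply, Pi.smul_apply, smul_eq_mul, Pi.single_apply]
    split_ifs <;> simp
  have hloc : ∀ x, ∀ k < m, fn (S x) k = (((1 - κ : ℝ) : 𝕜) • fn (S₀ x)) k := by
    intro x k hk
    rw [hfnS, if_neg (by omega), add_zero, Pi.smul_apply, smul_eq_mul]
  have hnn : ‖((1 - κ : ℝ) : 𝕜)‖ = 1 - κ := by
    rw [RCLike.norm_ofReal, abs_of_nonneg (by linarith)]
  have hkn : ‖((κ : ℝ) : 𝕜)‖ = κ := by
    rw [RCLike.norm_ofReal, abs_of_nonneg hκ0.le]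
  have hS₀phi : ∀ x, phi m i (fn (S₀ x)) = θ⁻¹ * f x := by
    intro x
    rw [hS₀x, fn_add, fn_smul, phi_add, phi_smul, hψu, mul_one]
    have e2 : phi m i (fn (T₁ x)) = ψ x := (phiL_apply m i (T₁ x)).symm
    rw [e2, hg, sub_apply, smul_apply, smul_eq_mul]
    ring
  have hnormS : ∀ x, ‖S x‖ = max ((1 - κ) * ‖S₀ x‖) ‖f x‖ := by
    intro x
    have h6 : ‖S x‖ = max (sp m (fn (S x))) (‖phi m i (fn (S x))‖ + ‖fn (S x) n‖) := by
      apply norm_flat hmn hcn hadm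
      · intro k h1 h2
        rw [hfnS, if_neg (by omega), hS₀0 x k h1, mul_zero, add_zero]
      · intro k h1
        rw [hfnS, if_neg (by omega), hS₀0 x k (by omega), mul_zero, add_zero]
    rw [h6, sp_local m _ _ (hloc x), sp_smul, hnn, ← norm_of_fin (S₀ x) m (hS₀0 x),
      phi_local m i _ _ (hloc x), phi_smul, hS₀phi, hfnS, if_pos rfl, hS₀0 x n hmn, mul_zero,
      zero_add, norm_mul, norm_mul, norm_mul, norm_inv, hθn, hnn, hkn]
    congr 1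
    ring
  have hS₀n : ∀ x, ‖S₀ x‖ ≤ (1 + 2 * e) * ‖x‖ := by
    intro x
    rw [hS₀x]
    calc ‖T₁ x + g x • u‖ ≤ ‖T₁ x‖ + ‖g x‖ * ‖u‖ := by
          rw [← norm_smul]; exact norm_add_le _ _
      _ ≤ ‖x‖ + e * ‖x‖ * 2 := by
          gcongr
          · exact hT₁n x
          · exact hgn x
      _ = (1 + 2 * e) * ‖x‖ := by ring
  have hSle : ∀ x, ‖S x‖ ≤ ‖x‖ := by
    intro x
    rw [hnormS]
    apply max_le
    · have h7 : (1 - κ) * ‖S₀ x‖ ≤ (1 - κ) * ((1 + 2 * e) * ‖x‖) :=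
        mul_le_mul_of_nonneg_left (hS₀n x) (by linarith)
      have h8 : (1 - κ) * (1 + 2 * e) ≤ 1 := by rw [hκ]; nlinarith
      calc (1 - κ) * ‖S₀ x‖ ≤ (1 - κ) * ((1 + 2 * e) * ‖x‖) := h7
        _ = (1 - κ) * (1 + 2 * e) * ‖x‖ := by ring
        _ ≤ 1 * ‖x‖ := mul_le_mul_of_nonneg_right h8 (norm_nonneg _)
        _ = ‖x‖ := one_mul _
    · calc ‖f x‖ ≤ ‖f‖ * ‖x‖ := f.le_opNorm x
        _ ≤ 1 * ‖x‖ := by gcongr
        _ = ‖x‖ := one_mul _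
  have hSx₀ : ‖S x₀‖ = 1 := by
    apply le_antisymm
    · rw [← hx₀]; exact hSle x₀
    · rw [hnormS, hf2, norm_one]
      exact le_max_right _ _
  refine ⟨S, ?_, ?_, hSx₀, ?_⟩
  · -- compactness
    exact ((hT₁c.add (isCompactOperator_smulRight g u)).smul _).add
      ((isCompactOperator_smulRight f (ev n)).smul _)
  · apply le_antisymm
    · exact opNorm_le_of_unit _ zero_le_one (fun x hx => (hSle x).trans hx)
    · calc (1 : ℝ) = ‖S x₀‖ := hSx₀.symm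
        _ ≤ ‖S‖ * ‖x₀‖ := S.le_opNorm x₀
        _ = ‖S‖ := by rw [hx₀, mul_one]
  · have h9 : ‖S - T‖ ≤ 8 * e := by
      apply opNorm_le_of_unit _ (by positivity)
      intro x hx
      have e3 : (S - T) x = (T₁ - T) x - ((κ : ℝ) : 𝕜) • T₁ x
          + ((1 - κ : ℝ) : 𝕜) • (g x • u) + ((κ : ℝ) : 𝕜) • f x • ev n := by
        exact aux_decomp (𝕜 := 𝕜) (T₁ x) (g x • u) _ (T x) κ
      have n1 : ‖(T₁ - T) x‖ ≤ e := by
        calc ‖(T₁ - T) x‖ ≤ ‖T₁ - T‖ * ‖x‖ := (T₁ - T).le_opNorm x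
          _ ≤ δ * 1 := mul_le_mul hm hx (norm_nonneg _) hδ0.le
          _ ≤ e := by linarith
      have n2 : ‖((κ : ℝ) : 𝕜) • T₁ x‖ ≤ 2 * e := by
        rw [norm_smul, hkn]
        calc κ * ‖T₁ x‖ ≤ κ * 1 := by gcongr; exact (hT₁n x).trans hx
          _ = 2 * e := by rw [hκ]; ring
      have n3 : ‖((1 - κ : ℝ) : 𝕜) • (g x • u)‖ ≤ 2 * e := by
        rw [norm_smul, norm_smul, hnn]
        have h10 : ‖g x‖ * ‖u‖ ≤ e * 2 := by
          apply mul_le_mul _ hun (norm_nonneg _) he0.le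
          calc ‖g x‖ ≤ e * ‖x‖ := hgn x
            _ ≤ e * 1 := by gcongr
            _ = e := mul_one _
        calc (1 - κ) * (‖g x‖ * ‖u‖) ≤ 1 * (e * 2) :=
              mul_le_mul (by linarith) h10 (by positivity) zero_le_one
          _ = 2 * e := by ring
      have n4 : ‖((κ : ℝ) : 𝕜) • f x • (ev n : YY 𝕜)‖ ≤ 2 * e := by
        have h11 : ‖(ev n : YY 𝕜)‖ ≤ 1 := norm_ev_le n
        have h12 : ‖f x‖ ≤ 1 := by
          calc ‖f x‖ ≤ ‖f‖ * ‖x‖ := f.le_opNorm x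
            _ ≤ 1 * 1 := mul_le_mul hf1 hx (norm_nonneg _) zero_le_one
            _ = 1 := one_mul _
        rw [norm_smul, norm_smul, hkn]
        calc κ * (‖f x‖ * ‖(ev n : YY 𝕜)‖) ≤ κ * (1 * 1) := by
              gcongr
          _ = 2 * e := by rw [hκ]; ring
      rw [e3]
      calc ‖(T₁ - T) x - ((κ : ℝ) : 𝕜) • T₁ x
          + ((1 - κ : ℝ) : 𝕜) • (g x • u) + ((κ : ℝ) : 𝕜) • f x • (ev n : YY 𝕜)‖
          ≤ ‖(T₁ - T) x‖ + ‖((κ : ℝ) : 𝕜) • T₁ x‖ + ‖((1 - κ : ℝ) : 𝕜) • (g x • u)‖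
            + ‖((κ : ℝ) : 𝕜) • f x • (ev n : YY 𝕜)‖ := by
            refine (norm_add_le _ _).trans (add_le_add ?_ le_rfl)
            refine (norm_add_le _ _).trans (add_le_add ?_ le_rfl)
            exact norm_sub_le _ _
        _ ≤ 8 * e := by linarith
    linarith

end Pool.Agent.H281.A54
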