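import Pool.Agent.H281.A54.Compact

open Filter Topology
open scoped ENNReal

namespace Pool.Agent.H281.A54

variable {𝕜 : Type} [RCLike 𝕜]

instance fact_one_le_four : Fact ((1 : ℝ≥0∞) ≤ 4) := ⟨by norm_num⟩

theorem par4 {H : Type*} [NormedAddCommGroup H] [InnerProductSpace 𝕜 H] (a b : H) :
    ‖a + b‖ ^ 4 + ‖a - b‖ ^ 4 ≤ 2 * ‖a‖ ^ 4 + 12 * (‖a‖ ^ 2 * ‖b‖ ^ 2) + 2 * ‖b‖ ^ 4 := by
  have h1 := parallelogram_law_with_norm 𝕜 a b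
  have h2 : ‖a + b‖ ≤ ‖a‖ + ‖b‖ := norm_add_le a b
  have h3 : ‖a - b‖ ≤ ‖a‖ + ‖b‖ := norm_sub_le a b
  have h4 : ‖a‖ - ‖b‖ ≤ ‖a - b‖ := norm_sub_norm_le a b
  have h5 : ‖b‖ - ‖a‖ ≤ ‖a - b‖ := by rw [norm_sub_rev]; exact norm_sub_norm_le b a
  have h4' : ‖a‖ - ‖b‖ ≤ ‖a + b‖ := by
    have := norm_sub_norm_le a (-b)
    simpa using this
  have h5' : ‖b‖ - ‖a‖ ≤ ‖a + b‖ := by
    have := norm_sub_norm_le b (-a)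
    rw [norm_neg] at this
    calc ‖b‖ - ‖a‖ ≤ ‖b - -a‖ := this
      _ = ‖a + b‖ := by rw [sub_neg_eq_add, add_comm]
  set A := ‖a‖ with hA
  set B := ‖b‖ with hB
  set p := ‖a + b‖ with hp
  set q := ‖a - b‖ with hq
  have hA0 : 0 ≤ A := norm_nonneg a
  have hB0 : 0 ≤ B := norm_nonneg b
  have hp0 : 0 ≤ p := norm_nonneg _
  have hq0 : 0 ≤ q := norm_nonneg _
  have h6 : p ^ 2 ≤ (A + B) ^ 2 := by gcongr
  have h7 : q ^ 2 ≤ (A + B) ^ 2 := by gcongr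
  have h8 : (A - B) ^ 2 ≤ q ^ 2 := by
    apply sq_le_sq'
    · linarith
    · exact h4
  have h9 : (A - B) ^ 2 ≤ p ^ 2 := by
    apply sq_le_sq'
    · linarith
    · exact h4'
  have h10 : p ^ 2 + q ^ 2 = 2 * (A ^ 2 + B ^ 2) := by nlinarith
  have h11 : (p ^ 2 - q ^ 2) ^ 2 ≤ (4 * (A * B)) ^ 2 := by
    apply sq_le_sq'
    · nlinarith
    · nlinarith
  nlinarith

/-- the domain space -/
abbrev XX (𝕜 : Type) [RCLike 𝕜] : Type := WithLp 4 (𝕜 × lp (fun _ : ℕ => 𝕜) 2)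

theorem norm_pow_four (x : XX 𝕜) : ‖x‖ ^ 4 = ‖x.fst‖ ^ 4 + ‖x.snd‖ ^ 4 := by
  have h := WithLp.prod_norm_eq_of_nat (p := 4) (α := 𝕜) (β := lp (fun _ : ℕ => 𝕜) 2) 4
    (by norm_num) x
  rw [h, ← Real.rpow_natCast, ← Real.rpow_mul (by positivity)]
  norm_num

theorem norm_fst_le' (x : XX 𝕜) : ‖x.fst‖ ≤ ‖x‖ := by
  have h := norm_pow_four x
  have h1 : ‖x.fst‖ ^ 4 ≤ ‖x‖ ^ 4 := by
    have : 0 ≤ ‖x.snd‖ ^ 4 := by positivity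
    linarith
  exact le_of_pow_le_pow_left₀ (by norm_num) (norm_nonneg _) h1

theorem norm_snd_le' (x : XX 𝕜) : ‖x.snd‖ ≤ ‖x‖ := by
  have h := norm_pow_four x
  have h1 : ‖x.snd‖ ^ 4 ≤ ‖x‖ ^ 4 := by
    have : 0 ≤ ‖x.fst‖ ^ 4 := by positivity
    linarith
  exact le_of_pow_le_pow_left₀ (by norm_num) (norm_nonneg _) h1

theorem smooth_ineq (x h : XX 𝕜) (hx : ‖x‖ = 1) (hh : ‖h‖ ≤ 1) :
    ‖x + h‖ + ‖x - h‖ ≤ 2 + 4 * ‖h‖ ^ 2 := by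
  have e1 := norm_pow_four (x + h)
  have e2 := norm_pow_four (x - h)
  have e3 := norm_pow_four x
  have e4 := norm_pow_four h
  have i1 := par4 (𝕜 := 𝕜) x.fst h.fst
  have i2 := par4 (𝕜 := 𝕜) x.snd h.snd
  rw [WithLp.add_fst, WithLp.add_snd] at e1
  rw [WithLp.sub_fst, WithLp.sub_snd] at e2
  rw [hx] at e3
  have c1 : ‖x.fst‖ ^ 2 * ‖h.fst‖ ^ 2 + ‖x.snd‖ ^ 2 * ‖h.snd‖ ^ 2 ≤ ‖h‖ ^ 2 := by
    have c2 : (‖x.fst‖ ^ 2 * ‖h.fst‖ ^ 2 + ‖x.snd‖ ^ 2 * ‖h.snd‖ ^ 2) ^ 2 ≤ (‖h‖ ^ 2) ^ 2 := by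
      have c3 : (‖h‖ ^ 2) ^ 2 = (‖x.fst‖ ^ 4 + ‖x.snd‖ ^ 4) * (‖h.fst‖ ^ 4 + ‖h.snd‖ ^ 4) := by
        rw [← e3, ← e4]; ring
      rw [c3]
      nlinarith [sq_nonneg (‖x.fst‖ ^ 2 * ‖h.snd‖ ^ 2 - ‖x.snd‖ ^ 2 * ‖h.fst‖ ^ 2)]
    exact le_of_pow_le_pow_left₀ (by norm_num) (by positivity) c2
  have t1 : ∀ u : ℝ, 4 * u - 3 ≤ u ^ 4 := by
    intro u
    nlinarith [sq_nonneg (u - 1), sq_nonneg (u ^ 2 - 1), sq_nonneg (u + 1), sq_nonneg (u*(u-1))]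
  have t2 := t1 ‖x + h‖
  have t3 := t1 ‖x - h‖
  have h4 : ‖h‖ ^ 4 ≤ ‖h‖ ^ 2 := by
    have : ‖h‖ ^ 2 ≤ 1 := by
      calc ‖h‖ ^ 2 ≤ 1 ^ 2 := by gcongr
        _ = 1 := by norm_num
    nlinarith [sq_nonneg ‖h‖]
  nlinarith

theorem usm_XX : USm 𝕜 (XX 𝕜) := by
  intro ε hε
  set t : ℝ := min (ε / 6) 1 with ht
  have ht0 : 0 < t := lt_min (by positivity) one_pos
  have ht1 : t ≤ 1 := min_le_right _ _
  have ht2 : 6 * t ≤ ε := by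
    have : t ≤ ε / 6 := min_le_left _ _
    linarith
  refine ⟨t ^ 2, by positivity, fun x₀ hx₀ F G hF hG hFx hGx => ?_⟩
  refine le_trans ?_ ht2
  apply opNorm_le_of_unit _ (by positivity)
  intro u hu
  set z := (F - G) u with hz
  by_cases hz0 : z = 0
  · rw [hz0, norm_zero]; positivity
  have hzn : ‖z‖ ≠ 0 := norm_ne_zero_iff.mpr hz0
  set c : 𝕜 := (t : 𝕜) * ((‖z‖ : 𝕜) * z⁻¹) with hc
  have hcn : ‖c‖ = t := by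
    rw [hc, norm_mul, norm_mul, norm_inv, RCLike.norm_ofReal, RCLike.norm_ofReal, abs_norm,
      mul_inv_cancel₀ hzn, mul_one, abs_of_pos ht0]
  have hcz : c * z = ((t * ‖z‖ : ℝ) : 𝕜) := by
    rw [hc, mul_assoc, mul_assoc, inv_mul_cancel₀ hz0, mul_one, RCLike.ofReal_mul]
  have hh : ‖c • u‖ ≤ t := by
    rw [norm_smul, hcn]
    calc t * ‖u‖ ≤ t * 1 := by gcongr
      _ = t := mul_one t
  have h1 := smooth_ineq x₀ (c • u) hx₀ (hh.trans ht1)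
  have h2 : ‖c • u‖ ^ 2 ≤ t ^ 2 := by gcongr
  have h3 : RCLike.re (F (x₀ + c • u)) ≤ ‖x₀ + c • u‖ := by
    calc RCLike.re (F (x₀ + c • u)) ≤ ‖F (x₀ + c • u)‖ := RCLike.re_le_norm _
      _ ≤ ‖F‖ * ‖x₀ + c • u‖ := F.le_opNorm _
      _ ≤ 1 * ‖x₀ + c • u‖ := by gcongr
      _ = _ := one_mul _
  have h4 : RCLike.re (G (x₀ - c • u)) ≤ ‖x₀ - c • u‖ := by
    calc RCLike.re (G (x₀ - c • u)) ≤ ‖G (x₀ - c • u)‖ := RCLike.re_le_norm _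
      _ ≤ ‖G‖ * ‖x₀ - c • u‖ := G.le_opNorm _
      _ ≤ 1 * ‖x₀ - c • u‖ := by gcongr
      _ = _ := one_mul _
  have h5 : RCLike.re (F (x₀ + c • u)) + RCLike.re (G (x₀ - c • u))
      = RCLike.re (F x₀) + RCLike.re (G x₀) + t * ‖z‖ := by
    have e1 : RCLike.re (c * z) = t * ‖z‖ := by rw [hcz, RCLike.ofReal_re]
    have e2 : c * z = c * F u - c * G u := by
      rw [hz, sub_apply]; ring
    rw [e2, map_sub] at e1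
    rw [map_add, map_sub, map_smul, map_smul, smul_eq_mul, smul_eq_mul, map_add, map_sub]
    linarith
  have h6 : t * ‖z‖ ≤ t * (6 * t) := by nlinarith
  exact le_of_mul_le_mul_left h6 ht0

end Pool.Agent.H281.A54
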