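import Pool.Agent.H281.A54.NonP

open Filter Topology
open scoped ENNReal

namespace Pool.Agent.H281.A54

variable {𝕜 : Type} [RCLike 𝕜]

theorem sa_step_lower {n k j : ℕ} (hnk : n ≤ k) (h : code k = Sum.inl j) (y : ℕ → 𝕜) :
    sa n y ^ 2 + (1 / ((j : ℝ) + 1)) ^ 2 * ‖y k‖ ^ 2 ≤ sa (k + 1) y ^ 2 := by
  rw [sa_succ_w h, Real.sq_sqrt (by positivity)]
  have h1 : sa n y ≤ sa k y := sa_mono y hnk
  have h2 : sa n y ^ 2 ≤ sa k y ^ 2 := by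
    have := sa_nonneg n y
    gcongr
  linarith

theorem no_correction (j : ℕ) (S : XX 𝕜 →L[𝕜] YY 𝕜) (hS : ‖S‖ = 1) (hSx : ‖S xz‖ = 1)
    (hST : ‖S - ((‖(iotaL j : XX 𝕜 →L[𝕜] YY 𝕜)‖⁻¹ : ℝ) : 𝕜) • iotaL j‖ < 1 / 4) : False := by
  set c : ℝ := 1 / ((j : ℝ) + 1) with hc
  have hc0 : 0 < c := by positivity
  have hc1 : c ≤ 1 := by
    rw [hc, div_le_one (by positivity)]
    have : (0 : ℝ) ≤ j := Nat.cast_nonneg j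
    linarith
  set ν : ℝ := ‖(iotaL j : XX 𝕜 →L[𝕜] YY 𝕜)‖ with hν
  have hν2 : ν ≤ 2 := by
    have := norm_iotaL_le (𝕜 := 𝕜) j
    linarith
  have hν0 : 0 ≤ ν := norm_nonneg _
  have hν1 : 1 ≤ ν := by
    have h1 : ‖fn (iotaL j (xz : XX 𝕜)) n0‖ ≤ ‖iotaL j (xz : XX 𝕜)‖ := coord_le_norm _ _
    have h2 : fn (iotaL j (xz : XX 𝕜)) n0 = 1 := by
      rw [fn_iotaL, iota_n0]; rfl
    rw [h2, norm_one] at h1
    calc (1:ℝ) ≤ ‖iotaL j (xz : XX 𝕜)‖ := h1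
      _ ≤ ν * ‖(xz : XX 𝕜)‖ := ContinuousLinearMap.le_opNorm _ _
      _ = ν := by rw [norm_xz, mul_one]
  set T : XX 𝕜 →L[𝕜] YY 𝕜 := ((ν⁻¹ : ℝ) : 𝕜) • iotaL j with hT
  have hTx : ∀ x, fn (T x) = ((ν⁻¹ : ℝ) : 𝕜) • iota j x.fst (x.snd : ℕ → 𝕜) := by
    intro x
    rw [hT, smul_apply, fn_smul, fn_iotaL]
  have hνn : ‖((ν⁻¹ : ℝ) : 𝕜)‖ = ν⁻¹ := by
    rw [RCLike.norm_ofReal, abs_of_nonneg (by positivity)]
  have hνi : 1 / 2 ≤ ν⁻¹ := by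
    rw [one_div]
    exact inv_anti₀ (by linarith) hν2
  have hDiff : ∀ x : XX 𝕜, ‖(S - T) x‖ ≤ 1 / 4 * ‖x‖ := by
    intro x
    calc ‖(S - T) x‖ ≤ ‖S - T‖ * ‖x‖ := (S - T).le_opNorm x
      _ ≤ 1 / 4 * ‖x‖ := by gcongr
  -- the second seminorm of the base value is small
  have hsbT : ∀ n, sb n (fn (T (xz : XX 𝕜))) = 0 := by
    intro n
    rw [hTx, sb_smul]
    have h3 := (iota_bound j (xz : XX 𝕜).fst ((xz : XX 𝕜).snd : ℕ → 𝕜) n).2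
    have h4 : ∑ k ∈ Finset.range n, ‖((xz : XX 𝕜).snd : ℕ → 𝕜) k‖ ^ 2 = 0 := by
      apply Finset.sum_eq_zero
      intro k _
      have : ((xz : XX 𝕜).snd : ℕ → 𝕜) k = 0 := rfl
      rw [this, norm_zero]; norm_num
    rw [h4] at h3
    have h5 : sb n (iota j (xz : XX 𝕜).fst ((xz : XX 𝕜).snd : ℕ → 𝕜)) = 0 := by
      have := sq_nonneg (sb n (iota j (xz : XX 𝕜).fst ((xz : XX 𝕜).snd : ℕ → 𝕜)))
      exact pow_eq_zero_iff (two_ne_zero) |>.mp (le_antisymm h3 this)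
    rw [h5, mul_zero]
  set y0 : ℕ → 𝕜 := fn (S (xz : XX 𝕜)) with hy0
  have hsb : ∀ n, sb n y0 ≤ 1 / 4 := by
    intro n
    have e1 : y0 = fn ((S - T) (xz : XX 𝕜)) + fn (T (xz : XX 𝕜)) := by
      rw [← fn_add, hy0]
      congr 1
      rw [sub_apply]; abel
    rw [e1]
    calc sb n (fn ((S - T) (xz : XX 𝕜)) + fn (T (xz : XX 𝕜)))
        ≤ sb n (fn ((S - T) (xz : XX 𝕜))) + sb n (fn (T (xz : XX 𝕜))) := sb_add _ _ _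
      _ = sb n (fn ((S - T) (xz : XX 𝕜))) := by rw [hsbT, add_zero]
      _ ≤ sp n (fn ((S - T) (xz : XX 𝕜))) := le_max_right _ _
      _ ≤ ‖(S - T) (xz : XX 𝕜)‖ := sp_le_norm _ _
      _ ≤ 1 / 4 * ‖(xz : XX 𝕜)‖ := hDiff _
      _ = 1 / 4 := by rw [norm_xz, mul_one]
  -- parameters
  set τ : ℝ := c / 4 with hτ
  set δ : ℝ := c ^ 4 / 5120 with hδ
  have hτ0 : 0 < τ := by positivity
  have hτ1 : τ ≤ 1 := by rw [hτ]; linarith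
  have hδ0 : 0 < δ := by positivity
  have hc4 : c ^ 4 ≤ 1 := pow_le_one₀ hc0.le hc1
  have hδ1 : δ ≤ 1 / 5120 := by rw [hδ]; linarith
  obtain ⟨n, hn⟩ := exists_sp_gt (S (xz : XX 𝕜)) (C := 1 - δ) (by rw [hSx]; linarith)
  have hsa : 1 - δ < sa n y0 := by
    have h6 : sp n y0 = max (sa n y0) (sb n y0) := rfl
    rw [h6] at hn
    rcases lt_max_iff.mp hn with h | h
    · exact h
    · have := hsb n
      linarith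
  -- limits
  have hlim1 : Tendsto (fun k => sa n (fn (S (hz k)))) atTop (𝓝 0) := by
    have h7 : Tendsto (fun k => fn (S (hz k) : YY 𝕜)) atTop (𝓝 (0 : ℕ → 𝕜)) := by
      rw [tendsto_pi_nhds]
      intro i
      exact weak_null ((coordL i).comp S)
    have h8 := ((sa_continuous (𝕜 := 𝕜) n).tendsto 0).comp h7
    rw [sa_zero'] at h8
    exact h8
  have hlim2 : Tendsto (fun k => ‖y0 k‖) atTop (𝓝 0) := by
    have := (coord_tendsto (S (xz : XX 𝕜))).norm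
    simpa using this
  have hev1 : ∀ᶠ k in atTop, sa n (fn (S (hz k : XX 𝕜))) < δ := hlim1.eventually_lt_const hδ0
  have hev2 : ∀ᶠ k in atTop, ‖y0 k‖ < δ := hlim2.eventually_lt_const hδ0
  obtain ⟨K, hK⟩ := ((hev1.and hev2).and (eventually_ge_atTop n)).exists_forall_of_atTop
  obtain ⟨k, hKk, hk⟩ := code_spec (Sum.inl j) K
  obtain ⟨⟨hk1, hk2⟩, hk3⟩ := hK k hKk
  set z : ℕ → 𝕜 := fn (S (hz k : XX 𝕜)) with hzdef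
  -- lower bound for the k-th coordinate
  have hzk : 1 / 4 ≤ ‖z k‖ := by
    have h9 : ‖fn ((S - T) (hz k : XX 𝕜)) k‖ ≤ 1 / 4 := by
      calc ‖fn ((S - T) (hz k : XX 𝕜)) k‖ ≤ ‖(S - T) (hz k : XX 𝕜)‖ := coord_le_norm _ _
        _ ≤ 1 / 4 * ‖(hz k : XX 𝕜)‖ := hDiff _
        _ = 1 / 4 := by rw [norm_hz, mul_one]
    have h10 : fn ((S - T) (hz k : XX 𝕜)) k = z k - fn (T (hz k : XX 𝕜)) k := rfl
    have h11 : fn (T (hz k : XX 𝕜)) k = ((ν⁻¹ : ℝ) : 𝕜) := by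
      rw [hTx, Pi.smul_apply, iota_w hk]
      have : ((hz k : XX 𝕜).snd : ℕ → 𝕜) k = 1 := by
        show (lp.single 2 k (1 : 𝕜) : lp (fun _ : ℕ => 𝕜) 2) k = 1
        exact lp.single_apply_self _ _ _
      rw [this, smul_eq_mul, mul_one]
    rw [h10, h11] at h9
    have h12 := norm_sub_norm_le (((ν⁻¹ : ℝ) : 𝕜)) (z k)
    rw [hνn, norm_sub_rev] at h12
    linarith
  -- the main estimate
  set q : ℝ := ‖S ((xz : XX 𝕜) + (τ : 𝕜) • hz k)‖ with hq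
  have hq0 : 0 ≤ q := norm_nonneg _
  have hfn : fn (S ((xz : XX 𝕜) + (τ : 𝕜) • hz k)) = y0 + (τ : 𝕜) • z := by
    rw [map_add, map_smul, fn_add, fn_smul]
  have hτn : ‖(τ : 𝕜)‖ = τ := by rw [RCLike.norm_ofReal, abs_of_pos hτ0]
  have hup : q ^ 4 ≤ 1 + τ ^ 4 := by
    have h13 : q ≤ ‖(xz : XX 𝕜) + (τ : 𝕜) • hz k‖ := by
      calc q ≤ ‖S‖ * ‖(xz : XX 𝕜) + (τ : 𝕜) • hz k‖ := S.le_opNorm _
        _ = _ := by rw [hS, one_mul]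
    calc q ^ 4 ≤ ‖(xz : XX 𝕜) + (τ : 𝕜) • hz k‖ ^ 4 := by gcongr
      _ = 1 + τ ^ 4 := norm_comb τ k
  have hlow : (1 - 2 * δ) ^ 2 + c ^ 2 * (τ / 4 - δ) ^ 2 ≤ q ^ 2 := by
    have h14 : sa (k + 1) (y0 + (τ : 𝕜) • z) ≤ q := by
      rw [← hfn]
      exact (le_max_left _ _).trans (sp_le_norm _ (k + 1))
    have h15 := sa_step_lower hk3 hk (y0 + (τ : 𝕜) • z)
    have h16 : sa (k + 1) (y0 + (τ : 𝕜) • z) ^ 2 ≤ q ^ 2 := by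
      have := sa_nonneg (k + 1) (y0 + (τ : 𝕜) • z)
      gcongr
    have h17 : 1 - 2 * δ ≤ sa n (y0 + (τ : 𝕜) • z) := by
      have h18 : sa n y0 ≤ sa n (y0 + (τ : 𝕜) • z) + sa n ((-(τ : 𝕜)) • z) := by
        calc sa n y0 = sa n ((y0 + (τ : 𝕜) • z) + (-(τ : 𝕜)) • z) := by
              congr 1
              rw [neg_smul]; abel
          _ ≤ _ := sa_add _ _ _
      rw [sa_smul, norm_neg, hτn] at h18
      have h19 : τ * sa n z ≤ 1 * δ := mul_le_mul hτ1 hk1.le (sa_nonneg _ _) zero_le_one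
      linarith
    have h20 : τ / 4 - δ ≤ ‖(y0 + (τ : 𝕜) • z) k‖ := by
      have h21 : ‖((τ : 𝕜) • z) k‖ = τ * ‖z k‖ := by
        rw [Pi.smul_apply, norm_smul, hτn]
      have h22 : ‖((τ : 𝕜) • z) k‖ - ‖y0 k‖ ≤ ‖(y0 + (τ : 𝕜) • z) k‖ := by
        have := norm_sub_norm_le (((τ : 𝕜) • z) k) (-(y0 k))
        rw [norm_neg, sub_neg_eq_add, add_comm (((τ : 𝕜) • z) k)] at this
        exact this
      rw [h21] at h22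
      have h23 : τ * (1 / 4) ≤ τ * ‖z k‖ := mul_le_mul_of_nonneg_left hzk hτ0.le
      linarith
    have h24 : (0:ℝ) ≤ τ / 4 - δ := by
      rw [hτ, hδ]
      have : c ^ 4 ≤ c := by
        calc c ^ 4 ≤ c ^ 1 := pow_le_pow_of_le_one hc0.le hc1 (by norm_num)
          _ = c := pow_one c
      linarith
    have h25 : (1 - 2 * δ) ^ 2 ≤ sa n (y0 + (τ : 𝕜) • z) ^ 2 := by
      have : 0 ≤ 1 - 2 * δ := by linarith
      gcongr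
    have h26 : c ^ 2 * (τ / 4 - δ) ^ 2 ≤ c ^ 2 * ‖(y0 + (τ : 𝕜) • z) k‖ ^ 2 := by
      gcongr
    linarith
  -- numerical contradiction
  have h27 : q ^ 2 ≤ 1 + τ ^ 4 / 2 := by
    apply le_of_pow_le_pow_left₀ (n := 2) (by norm_num) (by positivity)
    calc (q ^ 2) ^ 2 = q ^ 4 := by ring
      _ ≤ 1 + τ ^ 4 := hup
      _ ≤ (1 + τ ^ 4 / 2) ^ 2 := by nlinarith [sq_nonneg (τ ^ 4)]
  have h28 : (1 - 2 * δ) ^ 2 + c ^ 2 * (τ / 4 - δ) ^ 2 ≤ 1 + τ ^ 4 / 2 := hlow.trans h27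
  have e5 : (1 - 2 * δ) ^ 2 + c ^ 2 * (τ / 4 - δ) ^ 2
      = 1 - 4 * δ + 4 * δ ^ 2 + c ^ 4 / 256 - c ^ 2 * (c / 8) * δ + c ^ 2 * δ ^ 2 := by
    rw [hτ]; ring
  have h29 : c ^ 2 * (c / 8) * δ ≤ δ := by
    have : c ^ 2 * (c / 8) ≤ 1 := by
      have h30 : c ^ 3 ≤ 1 := pow_le_one₀ hc0.le hc1
      nlinarith
    nlinarith
  have h31 : τ ^ 4 = c ^ 4 / 256 := by rw [hτ]; ring
  have h32 : 0 < c ^ 4 := by positivity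
  have h33 : 0 ≤ 4 * δ ^ 2 := by positivity
  have h34 : 0 ≤ c ^ 2 * δ ^ 2 := by positivity
  rw [e5, h31] at h28
  rw [hδ] at h28 h29 h33 h34
  linarith

theorem exists_bad (η : ℝ) (hη : 0 < η) : ∃ T : XX 𝕜 →L[𝕜] YY 𝕜, ‖T‖ = 1 ∧
    1 - η < ‖T xz‖ ∧ ∀ S : XX 𝕜 →L[𝕜] YY 𝕜, ‖S‖ = 1 → ‖S xz‖ = 1 → 1 / 4 ≤ ‖S - T‖ := by
  obtain ⟨j, hj⟩ := exists_nat_one_div_lt hη
  refine ⟨((‖(iotaL j : XX 𝕜 →L[𝕜] YY 𝕜)‖⁻¹ : ℝ) : 𝕜) • iotaL j, ?_, ?_, ?_⟩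
  · have hν1 : 1 ≤ ‖(iotaL j : XX 𝕜 →L[𝕜] YY 𝕜)‖ := by
      have h1 : ‖fn (iotaL j (xz : XX 𝕜)) n0‖ ≤ ‖iotaL j (xz : XX 𝕜)‖ := coord_le_norm _ _
      have h2 : fn (iotaL j (xz : XX 𝕜)) n0 = 1 := by
        rw [fn_iotaL, iota_n0]; rfl
      rw [h2, norm_one] at h1
      calc (1:ℝ) ≤ ‖iotaL j (xz : XX 𝕜)‖ := h1
        _ ≤ ‖(iotaL j : XX 𝕜 →L[𝕜] YY 𝕜)‖ * ‖(xz : XX 𝕜)‖ := ContinuousLinearMap.le_opNorm _ _
        _ = ‖(iotaL j : XX 𝕜 →L[𝕜] YY 𝕜)‖ := by rw [norm_xz, mul_one]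
    rw [norm_smul, RCLike.norm_ofReal, abs_of_nonneg (by positivity), inv_mul_cancel₀]
    linarith
  · have h1 : ‖fn (iotaL j (xz : XX 𝕜)) n0‖ ≤ ‖iotaL j (xz : XX 𝕜)‖ := coord_le_norm _ _
    have h2 : fn (iotaL j (xz : XX 𝕜)) n0 = 1 := by
      rw [fn_iotaL, iota_n0]; rfl
    rw [h2, norm_one] at h1
    have hν1 : 1 ≤ ‖(iotaL j : XX 𝕜 →L[𝕜] YY 𝕜)‖ := by
      calc (1:ℝ) ≤ ‖iotaL j (xz : XX 𝕜)‖ := h1
        _ ≤ ‖(iotaL j : XX 𝕜 →L[𝕜] YY 𝕜)‖ * ‖(xz : XX 𝕜)‖ := ContinuousLinearMap.le_opNorm _ _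
        _ = ‖(iotaL j : XX 𝕜 →L[𝕜] YY 𝕜)‖ := by rw [norm_xz, mul_one]
    have h3 := norm_iotaL_le (𝕜 := 𝕜) j
    rw [smul_apply, norm_smul, RCLike.norm_ofReal, abs_of_nonneg (by positivity)]
    set c : ℝ := 1 / ((j : ℝ) + 1) with hc
    have hc0 : 0 < c := by positivity
    have h4 : (1 + c)⁻¹ ≤ ‖(iotaL j : XX 𝕜 →L[𝕜] YY 𝕜)‖⁻¹ := inv_anti₀ (by linarith) h3
    have h5 : 1 - c ≤ (1 + c)⁻¹ := by
      rw [← one_div, le_div_iff₀ (by positivity)]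
      nlinarith
    have h6 : ‖(iotaL j : XX 𝕜 →L[𝕜] YY 𝕜)‖⁻¹ * 1
        ≤ ‖(iotaL j : XX 𝕜 →L[𝕜] YY 𝕜)‖⁻¹ * ‖iotaL j (xz : XX 𝕜)‖ :=
      mul_le_mul_of_nonneg_left h1 (by positivity)
    linarith
  · intro S hS hSx
    by_contra hcon
    exact no_correction j S hS hSx (not_le.mp hcon)

end Pool.Agent.H281.A54
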