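import Pool.Agent.H281.A54.Domain

open Filter Topology
open scoped ENNReal

namespace Pool.Agent.H281.A54

variable {𝕜 : Type} [RCLike 𝕜]

theorem exists_n0 : ∃ n, code n = Sum.inr (0, 0) := by
  obtain ⟨n, _, h⟩ := code_spec (Sum.inr (0, 0)) 0
  exact ⟨n, h⟩

/-- the distinguished flat coordinate -/
noncomputable def n0 : ℕ := Classical.choose exists_n0

theorem code_n0 : code n0 = Sum.inr (0, 0) := Classical.choose_spec exists_n0

theorem psi_n0 (y : ℕ → 𝕜) : psi n0 y = 0 := by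
  have h : ∀ z : ℕ → 𝕜, phi 0 0 z = 0 := fun z => by simp [phi]
  rw [psi_eq code_n0 (Nat.zero_le _) (fun z => by rw [h, norm_zero]; exact sp_nonneg _ _) y, h]

open Classical in
/-- the test operator, on the level of sequences -/
noncomputable def iota (j : ℕ) (s : 𝕜) (w : ℕ → 𝕜) : ℕ → 𝕜 :=
  fun k => if k = n0 then s else if code k = Sum.inl j then w k else 0

theorem iota_n0 (j : ℕ) (s : 𝕜) (w : ℕ → 𝕜) : iota j s w n0 = s := by
  simp [iota]

theorem iota_w {j k : ℕ} (h : code k = Sum.inl j) (s : 𝕜) (w : ℕ → 𝕜) : iota j s w k = w k := by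
  have : k ≠ n0 := by
    rintro rfl
    rw [code_n0] at h
    exact absurd h (by simp)
  simp [iota, h, this]

theorem iota_add (j : ℕ) (s s' : 𝕜) (w w' : ℕ → 𝕜) :
    iota j (s + s') (w + w') = iota j s w + iota j s' w' := by
  funext k
  simp only [iota, Pi.add_apply]
  split_ifs <;> simp

theorem iota_smul (j : ℕ) (r s : 𝕜) (w : ℕ → 𝕜) :
    iota j (r * s) (r • w) = r • iota j s w := by
  funext k
  simp only [iota, Pi.smul_apply, smul_eq_mul]
  split_ifs <;> simp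

theorem iota_bound (j : ℕ) (s : 𝕜) (w : ℕ → 𝕜) (n : ℕ) :
    (sa n (iota j s w)) ^ 2 ≤ max (∑ k ∈ Finset.range n, ‖w k‖ ^ 2)
      (‖s‖ ^ 2 + (1 / ((j : ℝ) + 1)) ^ 2 * ∑ k ∈ Finset.range n, ‖w k‖ ^ 2) ∧
    (sb n (iota j s w)) ^ 2 ≤ ∑ k ∈ Finset.range n, ‖w k‖ ^ 2 := by
  have hc0 : (0:ℝ) ≤ (1 / ((j : ℝ) + 1)) ^ 2 := by positivity
  have hc1 : (1 / ((j : ℝ) + 1)) ^ 2 ≤ 1 := by
    rw [div_pow, one_pow, div_le_one (by positivity)]
    have : (0 : ℝ) ≤ j := Nat.cast_nonneg j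
    nlinarith
  induction n with
  | zero =>
    simp only [sa_zero, sb_zero, Finset.range_zero, Finset.sum_empty]
    norm_num
  | succ n ih =>
    set y := iota j s w with hy
    set W := ∑ k ∈ Finset.range n, ‖w k‖ ^ 2 with hW
    have hW0 : 0 ≤ W := Finset.sum_nonneg (fun _ _ => by positivity)
    rw [Finset.sum_range_succ, ← hW]
    set M := max W (‖s‖ ^ 2 + (1 / ((j : ℝ) + 1)) ^ 2 * W) with hM
    have hwn : 0 ≤ ‖w n‖ ^ 2 := by positivity
    have hMle : M ≤ max (W + ‖w n‖ ^ 2)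
        (‖s‖ ^ 2 + (1 / ((j : ℝ) + 1)) ^ 2 * (W + ‖w n‖ ^ 2)) := by
      apply max_le_max
      · linarith
      · have : (1 / ((j : ℝ) + 1)) ^ 2 * W ≤ (1 / ((j : ℝ) + 1)) ^ 2 * (W + ‖w n‖ ^ 2) :=
          mul_le_mul_of_nonneg_left (by linarith) hc0
        linarith
    rcases h : code n with j' | mi
    · have hn0 : n ≠ n0 := by
        rintro rfl
        rw [code_n0] at h
        exact absurd h (by simp)
      by_cases hj : j' = j
      · subst hj
        have hyn : y n = w n := iota_w h s w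
        rw [sa_succ_w h, sb_succ_w h, hyn, Real.sq_sqrt (by positivity)]
        constructor
        · rcases le_total W (‖s‖ ^ 2 + (1 / ((j' : ℝ) + 1)) ^ 2 * W) with hle | hle
          · rw [hM, max_eq_right hle] at ih
            apply le_max_of_le_right
            have := ih.1
            nlinarith
          · rw [hM, max_eq_left hle] at ih
            apply le_max_of_le_left
            have := ih.1
            nlinarith
        · rcases max_choice (sb n y) ‖w n‖ with hm | hm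
          · rw [hm]; linarith [ih.2]
          · rw [hm]; linarith
      · have hyn : y n = 0 := by
          have : code n ≠ Sum.inl j := by rw [h]; simpa using hj
          simp [hy, iota, hn0, this]
        rw [sa_succ_w h, sb_succ_w h, hyn, norm_zero, Real.sq_sqrt (by positivity)]
        constructor
        · have := ih.1.trans hMle
          linarith
        · rw [max_eq_left (sb_nonneg n y)]
          linarith [ih.2]
    · rw [sa_succ_v h, sb_succ_v h]
      refine ⟨?_, by linarith [ih.2]⟩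
      by_cases hn : n = n0
      · rw [hn, psi_n0, norm_zero, zero_add, hy, iota_n0, ← hy, ← hn]
        rcases max_choice (sa n y) ‖s‖ with hm | hm
        · rw [hm]; exact ih.1.trans hMle
        · rw [hm]
          apply le_max_of_le_right
          have : 0 ≤ (1 / ((j : ℝ) + 1)) ^ 2 * (W + ‖w n‖ ^ 2) := by positivity
          linarith
      · have hyn : y n = 0 := by
          have : code n ≠ Sum.inl j := by rw [h]; simp
          simp [hy, iota, hn, this]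
        rw [hyn, norm_zero, add_zero]
        have h1 : max (sa n y) ‖psi n y‖ ≤ sp n y := max_le (le_max_left _ _) (psi_le n y)
        have h2 : (max (sa n y) ‖psi n y‖) ^ 2 ≤ (sp n y) ^ 2 := by
          have : 0 ≤ max (sa n y) ‖psi n y‖ := le_max_of_le_left (sa_nonneg n y)
          gcongr
        refine h2.trans ?_
        rw [sp]
        rcases max_choice (sa n y) (sb n y) with hm | hm
        · rw [hm]; exact ih.1.trans hMle
        · rw [hm]; exact (ih.2.trans (le_max_left _ _)).trans hMle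

theorem iota_sp_bound (j : ℕ) (s : 𝕜) (w : ℕ → 𝕜) (n : ℕ) {W : ℝ}
    (hW : ∑ k ∈ Finset.range n, ‖w k‖ ^ 2 ≤ W) :
    (sp n (iota j s w)) ^ 2 ≤ max W (‖s‖ ^ 2 + (1 / ((j : ℝ) + 1)) ^ 2 * W) := by
  have h := iota_bound j s w n
  have hc0 : (0:ℝ) ≤ (1 / ((j : ℝ) + 1)) ^ 2 := by positivity
  have h1 : max (∑ k ∈ Finset.range n, ‖w k‖ ^ 2)
      (‖s‖ ^ 2 + (1 / ((j : ℝ) + 1)) ^ 2 * ∑ k ∈ Finset.range n, ‖w k‖ ^ 2)
      ≤ max W (‖s‖ ^ 2 + (1 / ((j : ℝ) + 1)) ^ 2 * W) := by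
    apply max_le_max hW
    have := mul_le_mul_of_nonneg_left hW hc0
    linarith
  rw [sp]
  rcases max_choice (sa n (iota j s w)) (sb n (iota j s w)) with hm | hm
  · rw [hm]; exact h.1.trans h1
  · rw [hm]; exact (h.2.trans hW).trans (le_max_left _ _)

theorem l2_sum_le (w : lp (fun _ : ℕ => 𝕜) 2) (s : Finset ℕ) :
    ∑ k ∈ s, ‖w k‖ ^ 2 ≤ ‖w‖ ^ 2 := by
  have h := lp.sum_rpow_le_norm_rpow (p := 2) (by norm_num) w s
  simpa using h

theorem l2_tendsto (w : lp (fun _ : ℕ => 𝕜) 2) :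
    Tendsto (fun n => ∑ k ∈ Finset.range n, ‖w k‖ ^ 2) atTop (𝓝 (‖w‖ ^ 2)) := by
  have h := (lp.hasSum_norm (p := 2) (by norm_num) w).tendsto_sum_nat
  simpa using h

theorem iota_mem (j : ℕ) (s : 𝕜) (w : lp (fun _ : ℕ => 𝕜) 2) :
    ∃ z : YY 𝕜, fn z = iota j s (w : ℕ → 𝕜) := by
  have hc0 : (0:ℝ) ≤ (1 / ((j : ℝ) + 1)) ^ 2 := by positivity
  have hc1 : (1 / ((j : ℝ) + 1)) ^ 2 ≤ 1 := by
    rw [div_pow, one_pow, div_le_one (by positivity)]
    have : (0 : ℝ) ≤ j := Nat.cast_nonneg j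
    nlinarith
  apply exists_mk (C := Real.sqrt (max (‖w‖ ^ 2) (‖s‖ ^ 2 + (1 / ((j : ℝ) + 1)) ^ 2 * ‖w‖ ^ 2)))
  · intro n
    apply Real.le_sqrt_of_sq_le
    exact iota_sp_bound j s w n (l2_sum_le w _)
  · intro ε hε
    have h1 := l2_tendsto w
    rw [Metric.tendsto_atTop] at h1
    obtain ⟨N, hN⟩ := h1 (ε ^ 2) (by positivity)
    set m := max N (n0 + 1) with hm
    have hmn0 : n0 < m := lt_of_lt_of_le (Nat.lt_succ_self _) (le_max_right _ _)
    have h2 := hN m (le_max_left _ _)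
    refine ⟨m, fun n => ?_⟩
    set w' : ℕ → 𝕜 := fun k => if k < m then 0 else w k with hw'
    have e1 : iota j s (w : ℕ → 𝕜) - trunc m (iota j s (w : ℕ → 𝕜)) = iota j 0 w' := by
      funext k
      simp only [iota, Pi.sub_apply, trunc, hw']
      by_cases hk : k < m
      · simp [hk]
      · have : k ≠ n0 := by omega
        simp [hk, this]
    rw [e1]
    have h3 : ∑ k ∈ Finset.range n, ‖w' k‖ ^ 2 ≤ ε ^ 2 := by
      set N' := max n m with hN'
      have h4 : ∑ k ∈ Finset.range n, ‖w' k‖ ^ 2 ≤ ∑ k ∈ Finset.range N', ‖w' k‖ ^ 2 := by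
        apply Finset.sum_le_sum_of_subset_of_nonneg
        · exact Finset.range_subset_range.mpr (le_max_left _ _)
        · intros; positivity
      have h5 : ∑ k ∈ Finset.range N', ‖w' k‖ ^ 2
          = ∑ k ∈ Finset.range N', ‖w k‖ ^ 2 - ∑ k ∈ Finset.range m, ‖w k‖ ^ 2 := by
        rw [← Finset.sum_range_add_sum_Ico _ (le_max_right n m),
          ← Finset.sum_range_add_sum_Ico (fun k => ‖w k‖ ^ 2) (le_max_right n m)]
        have h6 : ∑ k ∈ Finset.range m, ‖w' k‖ ^ 2 = 0 := by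
          apply Finset.sum_eq_zero
          intro k hk
          rw [Finset.mem_range] at hk
          simp [hw', hk]
        have h7 : ∑ k ∈ Finset.Ico m (max n m), ‖w' k‖ ^ 2
            = ∑ k ∈ Finset.Ico m (max n m), ‖w k‖ ^ 2 := by
          apply Finset.sum_congr rfl
          intro k hk
          rw [Finset.mem_Ico] at hk
          have : ¬ k < m := by omega
          simp [hw', this]
        rw [h6, h7]; ring
      have h8 := l2_sum_le w (Finset.range N')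
      rw [Real.dist_eq, abs_sub_lt_iff] at h2
      linarith [h2.2]
    have h9 := iota_sp_bound j 0 w' n h3
    have h10 : max (ε ^ 2) (‖(0:𝕜)‖ ^ 2 + (1 / ((j : ℝ) + 1)) ^ 2 * ε ^ 2) ≤ ε ^ 2 := by
      apply max_le le_rfl
      rw [norm_zero]
      nlinarith [sq_nonneg ε]
    exact le_of_pow_le_pow_left₀ (by norm_num) hε.le (h9.trans h10)

/-- the value of the test operator -/
noncomputable def iotaY (j : ℕ) (x : XX 𝕜) : YY 𝕜 := Classical.choose (iota_mem j x.fst x.snd)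

theorem fn_iotaY (j : ℕ) (x : XX 𝕜) : fn (iotaY j x) = iota j x.fst (x.snd : ℕ → 𝕜) :=
  Classical.choose_spec (iota_mem j x.fst x.snd)

theorem norm_iotaY_le (j : ℕ) (x : XX 𝕜) : ‖iotaY j x‖ ≤ (1 + 1 / ((j : ℝ) + 1)) * ‖x‖ := by
  apply norm_le_of_sp
  intro n
  have hc0 : (0:ℝ) ≤ 1 / ((j : ℝ) + 1) := by positivity
  have h1 := norm_fst_le' x
  have h2 := norm_snd_le' x
  have h3 := iota_sp_bound j x.fst (x.snd : ℕ → 𝕜) n (W := ‖x‖ ^ 2)
    ((l2_sum_le x.snd _).trans (by gcongr))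
  rw [fn_iotaY]
  apply le_of_pow_le_pow_left₀ (n := 2) (by norm_num) (by positivity)
  refine h3.trans ?_
  have h4 : ‖x.fst‖ ^ 2 ≤ ‖x‖ ^ 2 := by gcongr
  have h5 : 0 ≤ 2 * (1 / ((j : ℝ) + 1)) * ‖x‖ ^ 2 := by positivity
  have h6 : 0 ≤ (1 / ((j : ℝ) + 1)) ^ 2 * ‖x‖ ^ 2 := by positivity
  apply max_le
  · nlinarith
  · nlinarith

/-- the test operator -/
noncomputable def iotaL (j : ℕ) : XX 𝕜 →L[𝕜] YY 𝕜 :=
  LinearMap.mkContinuous
    { toFun := iotaY j
      map_add' := fun x y => fn_ext (by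
        rw [fn_add, fn_iotaY, fn_iotaY, fn_iotaY, WithLp.add_fst, WithLp.add_snd, lp.coeFn_add,
          iota_add])
      map_smul' := fun r x => fn_ext (by
        rw [RingHom.id_apply, fn_smul, fn_iotaY, fn_iotaY, WithLp.smul_fst, WithLp.smul_snd,
          lp.coeFn_smul, smul_eq_mul, iota_smul]) }
    (1 + 1 / ((j : ℝ) + 1)) (norm_iotaY_le j)

theorem fn_iotaL (j : ℕ) (x : XX 𝕜) : fn (iotaL j x) = iota j x.fst (x.snd : ℕ → 𝕜) :=
  fn_iotaY j x

theorem norm_iotaL_le (j : ℕ) : ‖(iotaL j : XX 𝕜 →L[𝕜] YY 𝕜)‖ ≤ 1 + 1 / ((j : ℝ) + 1) :=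
  LinearMap.mkContinuous_norm_le _ (by positivity) _

/-- the base point -/
noncomputable def xz : XX 𝕜 := WithLp.toLp 4 (1, 0)
/-- the test directions -/
noncomputable def hz (k : ℕ) : XX 𝕜 := WithLp.toLp 4 (0, lp.single 2 k 1)

theorem norm_xz : ‖(xz : XX 𝕜)‖ = 1 := by
  have h := norm_pow_four (xz : XX 𝕜)
  have e1 : (xz : XX 𝕜).fst = 1 := rfl
  have e2 : (xz : XX 𝕜).snd = 0 := rfl
  rw [e1, e2, norm_one, norm_zero] at h
  have h1 : ‖(xz : XX 𝕜)‖ ^ 4 = 1 ^ 4 := by rw [h]; norm_num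
  exact (pow_left_inj₀ (norm_nonneg _) zero_le_one (by norm_num)).mp h1

theorem norm_comb (τ : ℝ) (k : ℕ) :
    ‖(xz : XX 𝕜) + (τ : 𝕜) • hz k‖ ^ 4 = 1 + τ ^ 4 := by
  rw [norm_pow_four]
  have e1 : ((xz : XX 𝕜) + (τ : 𝕜) • hz k).fst = 1 := by
    show (1 : 𝕜) + (τ : 𝕜) • (0 : 𝕜) = 1
    rw [smul_zero, add_zero]
  have e2 : ((xz : XX 𝕜) + (τ : 𝕜) • hz k).snd = (τ : 𝕜) • lp.single 2 k 1 := by
    show (0 : lp (fun _ : ℕ => 𝕜) 2) + (τ : 𝕜) • lp.single 2 k 1 = _
    rw [zero_add]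
  rw [e1, e2, norm_smul, lp.norm_single (by norm_num), norm_one, RCLike.norm_ofReal,
    mul_one]
  have : |τ| ^ 4 = τ ^ 4 := by
    rw [← abs_pow]; exact abs_of_nonneg (by positivity)
  rw [this]; norm_num

theorem norm_hz (k : ℕ) : ‖(hz k : XX 𝕜)‖ = 1 := by
  have h := norm_pow_four (hz k : XX 𝕜)
  have e1 : (hz k : XX 𝕜).fst = 0 := rfl
  have e2 : (hz k : XX 𝕜).snd = lp.single 2 k 1 := rfl
  rw [e1, e2, lp.norm_single (by norm_num), norm_one, norm_zero] at h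
  have h1 : ‖(hz k : XX 𝕜)‖ ^ 4 = 1 ^ 4 := by rw [h]; norm_num
  exact (pow_left_inj₀ (norm_nonneg _) zero_le_one (by norm_num)).mp h1

theorem weak_null (L : XX 𝕜 →L[𝕜] 𝕜) : Tendsto (fun k => L (hz k)) atTop (𝓝 0) := by
  -- restrict to the second summand
  let J : lp (fun _ : ℕ => 𝕜) 2 →ₗ[𝕜] 𝕜 :=
    { toFun := fun w => L (WithLp.toLp 4 (0, w))
      map_add' := fun a b => by
        rw [← map_add]
        congr 1
        show WithLp.toLp 4 ((0 : 𝕜), a + b) = WithLp.toLp 4 ((0 : 𝕜) + 0, a + b)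
        rw [add_zero]
      map_smul' := fun r a => by
        rw [RingHom.id_apply, ← map_smul]
        congr 1
        show WithLp.toLp 4 ((0 : 𝕜), r • a) = WithLp.toLp 4 (r • (0 : 𝕜), r • a)
        rw [smul_zero] }
  have hJ : ∀ w, ‖J w‖ ≤ ‖L‖ * ‖w‖ := by
    intro w
    have h1 : ‖(WithLp.toLp 4 ((0 : 𝕜), w) : XX 𝕜)‖ = ‖w‖ := by
      have h := norm_pow_four (WithLp.toLp 4 ((0 : 𝕜), w) : XX 𝕜)
      have e1 : (WithLp.toLp 4 ((0 : 𝕜), w) : XX 𝕜).fst = 0 := rfl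
      have e2 : (WithLp.toLp 4 ((0 : 𝕜), w) : XX 𝕜).snd = w := rfl
      rw [e1, e2, norm_zero] at h
      have h2 : ‖(WithLp.toLp 4 ((0 : 𝕜), w) : XX 𝕜)‖ ^ 4 = ‖w‖ ^ 4 := by rw [h]; ring
      exact (pow_left_inj₀ (norm_nonneg _) (norm_nonneg _) (by norm_num)).mp h2
    calc ‖J w‖ = ‖L (WithLp.toLp 4 (0, w))‖ := rfl
      _ ≤ ‖L‖ * ‖(WithLp.toLp 4 ((0 : 𝕜), w) : XX 𝕜)‖ := L.le_opNorm _
      _ = ‖L‖ * ‖w‖ := by rw [h1]
  let K : lp (fun _ : ℕ => 𝕜) 2 →L[𝕜] 𝕜 := J.mkContinuous ‖L‖ hJ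
  obtain ⟨v, hv⟩ := (InnerProductSpace.toDual 𝕜 (lp (fun _ : ℕ => 𝕜) 2)).surjective K
  have h3 : ∀ k, L (hz k) = (starRingEnd 𝕜) (v k) := by
    intro k
    have h4 : K (lp.single 2 k 1) = L (hz k) := rfl
    rw [← h4, ← hv, InnerProductSpace.toDual_apply_apply, lp.inner_single_right]
    simp
  have h5 : Tendsto (fun k => ‖v k‖ ^ 2) atTop (𝓝 0) := by
    have h := (lp.hasSum_norm (p := 2) (by norm_num) v).summable.tendsto_atTop_zero
    simpa using h
  have h6 : Tendsto (fun k => ‖v k‖) atTop (𝓝 0) := by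
    have := h5.sqrt
    simpa [Real.sqrt_sq_eq_abs] using this
  rw [tendsto_zero_iff_norm_tendsto_zero]
  simp only [h3, RCLike.norm_conj]
  exact h6

end Pool.Agent.H281.A54
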