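import Mathlib

open Filter Topology

namespace Pool.Agent.H281.A54

theorem exists_code : ∃ code : ℕ → ℕ ⊕ (ℕ × ℕ), ∀ x N, ∃ n, N ≤ n ∧ code n = x := by
  obtain ⟨g, hg⟩ := exists_surjective_nat (ℕ × (ℕ ⊕ (ℕ × ℕ)))
  refine ⟨fun n => (g n).2, fun x N => ?_⟩
  by_contra hcon
  push Not at hcon
  have h1 : Set.range (fun k : ℕ => (k, x)) ⊆ g '' (Set.Iio N) := by
    rintro _ ⟨k, rfl⟩
    obtain ⟨n, hn⟩ := hg (k, x)
    refine ⟨n, ?_, hn⟩
    by_contra hlt
    exact hcon n (not_lt.mp hlt) (by simp [hn])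
  have h2 : (Set.range (fun k : ℕ => (k, x))).Infinite :=
    Set.infinite_range_of_injective (fun a b h => by simpa using h)
  exact h2 (((Set.finite_Iio N).image g).subset h1)

/-- the type of each coordinate: `inl j` means a weighted coordinate of weight `1/(j+1)`,
`inr (m, i)` means a flat coordinate attached to the `i`-th functional on the first `m`
coordinates. Every value is taken infinitely often. -/
noncomputable def code : ℕ → ℕ ⊕ (ℕ × ℕ) := Classical.choose exists_code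

theorem code_spec (x : ℕ ⊕ (ℕ × ℕ)) (N : ℕ) : ∃ n, N ≤ n ∧ code n = x :=
  Classical.choose_spec exists_code x N

variable {𝕜 : Type} [RCLike 𝕜]

/-- the `i`-th functional depending on the first `m` coordinates -/
noncomputable def phi (m i : ℕ) (y : ℕ → 𝕜) : 𝕜 :=
  ∑ k : Fin m, (TopologicalSpace.denseSeq (Fin m → 𝕜) i) k * y k

theorem phi_add (m i : ℕ) (y z : ℕ → 𝕜) : phi m i (y + z) = phi m i y + phi m i z := by
  simp [phi, mul_add, Finset.sum_add_distrib]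

theorem phi_smul (m i : ℕ) (r : 𝕜) (y : ℕ → 𝕜) : phi m i (r • y) = r * phi m i y := by
  simp only [phi, Pi.smul_apply, smul_eq_mul, Finset.mul_sum]
  exact Finset.sum_congr rfl (fun k _ => by ring)

theorem phi_local (m i : ℕ) (y z : ℕ → 𝕜) (h : ∀ k < m, y k = z k) :
    phi m i y = phi m i z := by
  simp only [phi]
  exact Finset.sum_congr rfl (fun k _ => by rw [h k k.2])

theorem phi_continuous (m i : ℕ) : Continuous (phi (𝕜 := 𝕜) m i) := by
  unfold phi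
  fun_prop

open Classical in
/-- the functional `phi` if it is admissible, and zero otherwise -/
noncomputable def psiOf (n : ℕ) (mi : ℕ × ℕ) (P : (ℕ → 𝕜) → ℝ) (y : ℕ → 𝕜) : 𝕜 :=
  if mi.1 ≤ n ∧ ∀ z : ℕ → 𝕜, ‖phi mi.1 mi.2 z‖ ≤ P z then phi mi.1 mi.2 y else 0

/-- the pair of recursive seminorms -/
noncomputable def ab : ℕ → ((ℕ → 𝕜) → ℝ) × ((ℕ → 𝕜) → ℝ)
  | 0 => (fun _ => 0, fun _ => 0)
  | n + 1 =>
    match code n with
    | Sum.inl j =>
      (fun y => Real.sqrt ((ab n).1 y ^ 2 + (1 / ((j : ℝ) + 1)) ^ 2 * ‖y n‖ ^ 2),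
        fun y => max ((ab n).2 y) ‖y n‖)
    | Sum.inr mi =>
      (fun y => max ((ab n).1 y)
        (‖psiOf n mi (fun z => max ((ab n).1 z) ((ab n).2 z)) y‖ + ‖y n‖),
        (ab n).2)

/-- first seminorm -/
noncomputable def sa (n : ℕ) (y : ℕ → 𝕜) : ℝ := (ab n).1 y
/-- second seminorm -/
noncomputable def sb (n : ℕ) (y : ℕ → 𝕜) : ℝ := (ab n).2 y
/-- their maximum -/
noncomputable def sp (n : ℕ) (y : ℕ → 𝕜) : ℝ := max (sa n y) (sb n y)

/-- the functional used at step `n` -/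
noncomputable def psi (n : ℕ) (y : ℕ → 𝕜) : 𝕜 :=
  match code n with
  | Sum.inl _ => 0
  | Sum.inr mi => psiOf n mi (sp n) y

theorem sa_zero (y : ℕ → 𝕜) : sa 0 y = 0 := rfl
theorem sb_zero (y : ℕ → 𝕜) : sb 0 y = 0 := rfl

theorem sa_succ_w {n j : ℕ} (h : code n = Sum.inl j) (y : ℕ → 𝕜) :
    sa (n + 1) y = Real.sqrt (sa n y ^ 2 + (1 / ((j : ℝ) + 1)) ^ 2 * ‖y n‖ ^ 2) := by
  simp only [sa, ab, h]

theorem sb_succ_w {n j : ℕ} (h : code n = Sum.inl j) (y : ℕ → 𝕜) :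
    sb (n + 1) y = max (sb n y) ‖y n‖ := by
  simp only [sb, ab, h]

theorem sa_succ_v {n : ℕ} {mi : ℕ × ℕ} (h : code n = Sum.inr mi) (y : ℕ → 𝕜) :
    sa (n + 1) y = max (sa n y) (‖psi n y‖ + ‖y n‖) := by
  simp only [sa, psi, ab, h]
  rfl

theorem sb_succ_v {n : ℕ} {mi : ℕ × ℕ} (h : code n = Sum.inr mi) (y : ℕ → 𝕜) :
    sb (n + 1) y = sb n y := by
  simp only [sb, ab, h]

theorem psi_cases (n : ℕ) :
    (∀ y : ℕ → 𝕜, psi n y = 0) ∨
    ∃ m i, m ≤ n ∧ (∀ z : ℕ → 𝕜, ‖phi m i z‖ ≤ sp n z) ∧ ∀ y : ℕ → 𝕜, psi n y = phi m i y := by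
  classical
  rcases h : code n with j | mi
  · left; intro y; simp only [psi, h]
  · by_cases hc : mi.1 ≤ n ∧ ∀ z : ℕ → 𝕜, ‖phi mi.1 mi.2 z‖ ≤ sp n z
    · right
      refine ⟨mi.1, mi.2, hc.1, hc.2, fun y => ?_⟩
      simp only [psi, h, psiOf]
      rw [if_pos hc]
    · left; intro y
      simp only [psi, h, psiOf]
      rw [if_neg hc]

theorem psi_eq {n : ℕ} {mi : ℕ × ℕ} (h : code n = Sum.inr mi) (h1 : mi.1 ≤ n)
    (h2 : ∀ z : ℕ → 𝕜, ‖phi mi.1 mi.2 z‖ ≤ sp n z) (y : ℕ → 𝕜) :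
    psi n y = phi mi.1 mi.2 y := by
  classical
  simp only [psi, h, psiOf]
  rw [if_pos ⟨h1, h2⟩]

theorem psi_add (n : ℕ) (y z : ℕ → 𝕜) : psi n (y + z) = psi n y + psi n z := by
  rcases psi_cases (𝕜 := 𝕜) n with h | ⟨m, i, _, _, h⟩
  · simp [h]
  · simp [h, phi_add]

theorem psi_smul (n : ℕ) (r : 𝕜) (y : ℕ → 𝕜) : psi n (r • y) = r * psi n y := by
  rcases psi_cases (𝕜 := 𝕜) n with h | ⟨m, i, _, _, h⟩
  · simp [h]
  · simp [h, phi_smul]

theorem psi_continuous (n : ℕ) : Continuous (psi (𝕜 := 𝕜) n) := by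
  rcases psi_cases (𝕜 := 𝕜) n with h | ⟨m, i, _, _, h⟩
  · have : psi (𝕜 := 𝕜) n = fun _ => 0 := funext h
    rw [this]; exact continuous_const
  · have : psi (𝕜 := 𝕜) n = phi m i := funext h
    rw [this]; exact phi_continuous m i

theorem psi_local (n : ℕ) (y z : ℕ → 𝕜) (hyz : ∀ k < n, y k = z k) : psi n y = psi n z := by
  rcases psi_cases (𝕜 := 𝕜) n with h | ⟨m, i, hm, _, h⟩
  · simp [h]
  · rw [h, h]; exact phi_local m i y z (fun k hk => hyz k (lt_of_lt_of_le hk hm))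

theorem sab_nonneg (n : ℕ) (y : ℕ → 𝕜) : 0 ≤ sa n y ∧ 0 ≤ sb n y := by
  induction n with
  | zero => simp [sa_zero, sb_zero]
  | succ n ih =>
    rcases h : code n with j | mi
    · rw [sa_succ_w h, sb_succ_w h]
      exact ⟨Real.sqrt_nonneg _, le_max_of_le_left ih.2⟩
    · rw [sa_succ_v h, sb_succ_v h]
      exact ⟨le_max_of_le_left ih.1, ih.2⟩

theorem sa_nonneg (n : ℕ) (y : ℕ → 𝕜) : 0 ≤ sa n y := (sab_nonneg n y).1
theorem sb_nonneg (n : ℕ) (y : ℕ → 𝕜) : 0 ≤ sb n y := (sab_nonneg n y).2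
theorem sp_nonneg (n : ℕ) (y : ℕ → 𝕜) : 0 ≤ sp n y := le_max_of_le_left (sa_nonneg n y)

theorem psi_le (n : ℕ) (y : ℕ → 𝕜) : ‖psi n y‖ ≤ sp n y := by
  rcases psi_cases (𝕜 := 𝕜) n with h | ⟨m, i, hm, h1, h⟩
  · rw [h]; simpa using sp_nonneg n y
  · rw [h]; exact h1 y

theorem sqrt_sq_add_le {a b c d e f : ℝ} (he : 0 ≤ e) (hf : 0 ≤ f) (hea : e ≤ a + c) (hfb : f ≤ b + d) :
    Real.sqrt (e ^ 2 + f ^ 2) ≤ Real.sqrt (a ^ 2 + b ^ 2) + Real.sqrt (c ^ 2 + d ^ 2) := by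
  rw [Real.sqrt_le_left (by positivity)]
  have h1 : (Real.sqrt (a ^ 2 + b ^ 2)) ^ 2 = a ^ 2 + b ^ 2 := Real.sq_sqrt (by positivity)
  have h2 : (Real.sqrt (c ^ 2 + d ^ 2)) ^ 2 = c ^ 2 + d ^ 2 := Real.sq_sqrt (by positivity)
  have h3 : a * c + b * d ≤ Real.sqrt (a ^ 2 + b ^ 2) * Real.sqrt (c ^ 2 + d ^ 2) := by
    rw [← Real.sqrt_mul (by positivity)]
    apply Real.le_sqrt_of_sq_le
    nlinarith [sq_nonneg (a * d - b * c)]
  have h4 : e ^ 2 ≤ (a + c) ^ 2 := by gcongr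
  have h5 : f ^ 2 ≤ (b + d) ^ 2 := by gcongr
  nlinarith

theorem sab_add (n : ℕ) (y z : ℕ → 𝕜) :
    sa n (y + z) ≤ sa n y + sa n z ∧ sb n (y + z) ≤ sb n y + sb n z := by
  induction n with
  | zero => simp [sa_zero, sb_zero]
  | succ n ih =>
    rcases h : code n with j | mi
    · rw [sa_succ_w h, sb_succ_w h, sa_succ_w h, sb_succ_w h, sa_succ_w h, sb_succ_w h]
      constructor
      · have hc : (0:ℝ) ≤ 1 / ((j:ℝ) + 1) := by positivity
        simp only [← mul_pow]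
        apply sqrt_sq_add_le (sa_nonneg _ _) (by positivity) ih.1
        rw [← mul_add]
        exact mul_le_mul_of_nonneg_left (norm_add_le _ _) hc
      · apply max_le
        · exact ih.2.trans (add_le_add (le_max_left _ _) (le_max_left _ _))
        · exact (norm_add_le _ _).trans (add_le_add (le_max_right _ _) (le_max_right _ _))
    · rw [sa_succ_v h, sb_succ_v h, sa_succ_v h, sb_succ_v h, sa_succ_v h, sb_succ_v h]
      refine ⟨?_, ih.2⟩
      apply max_le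
      · exact ih.1.trans (add_le_add (le_max_left _ _) (le_max_left _ _))
      · have h1 : ‖psi n (y + z)‖ ≤ ‖psi n y‖ + ‖psi n z‖ := by
          rw [psi_add]; exact norm_add_le _ _
        have h2 : ‖(y + z) n‖ ≤ ‖y n‖ + ‖z n‖ := norm_add_le _ _
        have h3 := le_max_right (sa n y) (‖psi n y‖ + ‖y n‖)
        have h4 := le_max_right (sa n z) (‖psi n z‖ + ‖z n‖)
        linarith

theorem sa_add (n : ℕ) (y z : ℕ → 𝕜) : sa n (y + z) ≤ sa n y + sa n z := (sab_add n y z).1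
theorem sb_add (n : ℕ) (y z : ℕ → 𝕜) : sb n (y + z) ≤ sb n y + sb n z := (sab_add n y z).2

theorem sp_add (n : ℕ) (y z : ℕ → 𝕜) : sp n (y + z) ≤ sp n y + sp n z := by
  apply max_le
  · exact (sa_add n y z).trans (add_le_add (le_max_left _ _) (le_max_left _ _))
  · exact (sb_add n y z).trans (add_le_add (le_max_right _ _) (le_max_right _ _))

theorem sab_smul (n : ℕ) (r : 𝕜) (y : ℕ → 𝕜) :
    sa n (r • y) = ‖r‖ * sa n y ∧ sb n (r • y) = ‖r‖ * sb n y := by
  induction n with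
  | zero => simp [sa_zero, sb_zero]
  | succ n ih =>
    have hr : (r • y) n = r * y n := rfl
    rcases h : code n with j | mi
    · rw [sa_succ_w h, sb_succ_w h, sa_succ_w h, sb_succ_w h, ih.1, ih.2, hr, norm_mul]
      constructor
      · have : (‖r‖ * sa n y) ^ 2 + (1 / ((j:ℝ) + 1)) ^ 2 * (‖r‖ * ‖y n‖) ^ 2
            = ‖r‖ ^ 2 * (sa n y ^ 2 + (1 / ((j:ℝ) + 1)) ^ 2 * ‖y n‖ ^ 2) := by ring
        rw [this, Real.sqrt_mul (by positivity), Real.sqrt_sq (norm_nonneg r)]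
      · rw [mul_max_of_nonneg _ _ (norm_nonneg r)]
    · rw [sa_succ_v h, sb_succ_v h, sa_succ_v h, sb_succ_v h, ih.1, ih.2, hr, norm_mul, psi_smul,
        norm_mul]
      refine ⟨?_, rfl⟩
      rw [mul_max_of_nonneg _ _ (norm_nonneg r), mul_add]

theorem sa_smul (n : ℕ) (r : 𝕜) (y : ℕ → 𝕜) : sa n (r • y) = ‖r‖ * sa n y := (sab_smul n r y).1
theorem sb_smul (n : ℕ) (r : 𝕜) (y : ℕ → 𝕜) : sb n (r • y) = ‖r‖ * sb n y := (sab_smul n r y).2
theorem sp_smul (n : ℕ) (r : 𝕜) (y : ℕ → 𝕜) : sp n (r • y) = ‖r‖ * sp n y := by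
  simp only [sp, sa_smul, sb_smul]
  rw [mul_max_of_nonneg _ _ (norm_nonneg r)]

theorem sab_local (n : ℕ) (y z : ℕ → 𝕜) (hyz : ∀ k < n, y k = z k) :
    sa n y = sa n z ∧ sb n y = sb n z := by
  induction n with
  | zero => simp [sa_zero, sb_zero]
  | succ n ih =>
    have ih' := ih (fun k hk => hyz k (Nat.lt_succ_of_lt hk))
    have hn : y n = z n := hyz n (Nat.lt_succ_self n)
    have hp : psi n y = psi n z := psi_local n y z (fun k hk => hyz k (Nat.lt_succ_of_lt hk))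
    rcases h : code n with j | mi
    · rw [sa_succ_w h, sb_succ_w h, sa_succ_w h, sb_succ_w h, ih'.1, ih'.2, hn]
      exact ⟨rfl, rfl⟩
    · rw [sa_succ_v h, sb_succ_v h, sa_succ_v h, sb_succ_v h, ih'.1, ih'.2, hn, hp]
      exact ⟨rfl, rfl⟩

theorem sp_local (n : ℕ) (y z : ℕ → 𝕜) (hyz : ∀ k < n, y k = z k) : sp n y = sp n z := by
  simp only [sp, (sab_local n y z hyz).1, (sab_local n y z hyz).2]

theorem sab_le_succ (n : ℕ) (y : ℕ → 𝕜) : sa n y ≤ sa (n + 1) y ∧ sb n y ≤ sb (n + 1) y := by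
  rcases h : code n with j | mi
  · rw [sa_succ_w h, sb_succ_w h]
    refine ⟨?_, le_max_left _ _⟩
    apply Real.le_sqrt_of_sq_le
    have : 0 ≤ (1 / ((j:ℝ) + 1)) ^ 2 * ‖y n‖ ^ 2 := by positivity
    linarith
  · rw [sa_succ_v h, sb_succ_v h]
    exact ⟨le_max_left _ _, le_rfl⟩

theorem sa_mono (y : ℕ → 𝕜) : Monotone (fun n => sa n y) :=
  monotone_nat_of_le_succ (fun n => (sab_le_succ n y).1)
theorem sb_mono (y : ℕ → 𝕜) : Monotone (fun n => sb n y) :=
  monotone_nat_of_le_succ (fun n => (sab_le_succ n y).2)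
theorem sp_mono (y : ℕ → 𝕜) : Monotone (fun n => sp n y) :=
  fun _ _ h => max_le_max (sa_mono y h) (sb_mono y h)

theorem coord_le_succ (n : ℕ) (y : ℕ → 𝕜) : ‖y n‖ ≤ sp (n + 1) y := by
  rcases h : code n with j | mi
  · exact le_max_of_le_right (by rw [sb_succ_w h]; exact le_max_right _ _)
  · refine le_max_of_le_left ?_
    rw [sa_succ_v h]
    refine le_max_of_le_right ?_
    have := norm_nonneg (psi n y)
    linarith

theorem coord_le {k n : ℕ} (h : k < n) (y : ℕ → 𝕜) : ‖y k‖ ≤ sp n y :=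
  (coord_le_succ k y).trans (sp_mono y h)

theorem sp_succ_of_zero (n : ℕ) (y : ℕ → 𝕜) (hy : y n = 0) : sp (n + 1) y = sp n y := by
  apply le_antisymm _ (sp_mono y (Nat.le_succ n))
  rcases h : code n with j | mi
  · apply max_le
    · rw [sa_succ_w h, hy]
      simp only [norm_zero]
      have : sa n y ^ 2 + (1 / ((j:ℝ) + 1)) ^ 2 * 0 ^ 2 = sa n y ^ 2 := by ring
      rw [this, Real.sqrt_sq (sa_nonneg n y)]
      exact le_max_left _ _
    · rw [sb_succ_w h, hy, norm_zero]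
      exact max_le (le_max_right _ _) (sp_nonneg n y)
  · apply max_le
    · rw [sa_succ_v h, hy, norm_zero, add_zero]
      exact max_le (le_max_left _ _) (psi_le n y)
    · rw [sb_succ_v h]
      exact le_max_right _ _

theorem sp_eq_of_zero {m n : ℕ} (hmn : m ≤ n) (y : ℕ → 𝕜) (hy : ∀ k, m ≤ k → k < n → y k = 0) :
    sp n y = sp m y := by
  induction n, hmn using Nat.le_induction with
  | base => rfl
  | succ n hmn ih =>
    rw [sp_succ_of_zero n y (hy n hmn (Nat.lt_succ_self n))]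
    exact ih (fun k h1 h2 => hy k h1 (Nat.lt_succ_of_lt h2))

theorem sab_continuous (n : ℕ) :
    Continuous (sa (𝕜 := 𝕜) n) ∧ Continuous (sb (𝕜 := 𝕜) n) := by
  induction n with
  | zero =>
    constructor
    · have : sa (𝕜 := 𝕜) 0 = fun _ => 0 := funext sa_zero
      rw [this]; exact continuous_const
    · have : sb (𝕜 := 𝕜) 0 = fun _ => 0 := funext sb_zero
      rw [this]; exact continuous_const
  | succ n ih =>
    obtain ⟨i1, i2⟩ := ih
    have i3 := psi_continuous (𝕜 := 𝕜) n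
    rcases h : code n with j | mi
    · have e1 : sa (𝕜 := 𝕜) (n + 1) = _ := funext (sa_succ_w h)
      have e2 : sb (𝕜 := 𝕜) (n + 1) = _ := funext (sb_succ_w h)
      rw [e1, e2]
      constructor
      · fun_prop
      · fun_prop
    · have e1 : sa (𝕜 := 𝕜) (n + 1) = _ := funext (sa_succ_v h)
      have e2 : sb (𝕜 := 𝕜) (n + 1) = _ := funext (sb_succ_v h)
      rw [e1, e2]
      constructor
      · fun_prop
      · exact i2

theorem sa_continuous (n : ℕ) : Continuous (sa (𝕜 := 𝕜) n) := (sab_continuous n).1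
theorem sb_continuous (n : ℕ) : Continuous (sb (𝕜 := 𝕜) n) := (sab_continuous n).2
theorem sp_continuous (n : ℕ) : Continuous (sp (𝕜 := 𝕜) n) :=
  (sa_continuous n).max (sb_continuous n)

/-- truncation to the first `m` coordinates -/
def trunc (m : ℕ) (y : ℕ → 𝕜) : ℕ → 𝕜 := fun k => if k < m then y k else 0

theorem trunc_add (m : ℕ) (y z : ℕ → 𝕜) : trunc m (y + z) = trunc m y + trunc m z := by
  funext k
  by_cases h : k < m <;> simp [trunc, h]

theorem trunc_smul (m : ℕ) (r : 𝕜) (y : ℕ → 𝕜) : trunc m (r • y) = r • trunc m y := by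
  funext k
  by_cases h : k < m <;> simp [trunc, h]

theorem sp_trunc_of_le {m n : ℕ} (h : m ≤ n) (y : ℕ → 𝕜) : sp n (trunc m y) = sp m y := by
  rw [sp_eq_of_zero h (trunc m y) (fun k h1 _ => by simp [trunc, not_lt.mpr h1])]
  exact sp_local m _ _ (fun k hk => by simp [trunc, hk])

theorem sp_trunc_le (m n : ℕ) (y : ℕ → 𝕜) : sp n (trunc m y) ≤ sp m y := by
  rcases le_total m n with h | h
  · rw [sp_trunc_of_le h]
  · calc sp n (trunc m y) ≤ sp m (trunc m y) := sp_mono _ h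
      _ = sp m y := sp_trunc_of_le le_rfl y

theorem sp_le_of_zero {m : ℕ} (y : ℕ → 𝕜) (hy : ∀ k, m ≤ k → y k = 0) (n : ℕ) :
    sp n y ≤ sp m y := by
  rcases le_total m n with h | h
  · rw [sp_eq_of_zero h y (fun k h1 _ => hy k h1)]
  · exact sp_mono y h

end Pool.Agent.H281.A54
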