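import Pool.Agent.H281.A54.Seminorms

open Filter Topology

namespace Pool.Agent.H281.A54

variable (𝕜 : Type) [RCLike 𝕜]

/-- scalar sequences, without any topology -/
def Seq : Type := ℕ → 𝕜

noncomputable instance : AddCommGroup (Seq 𝕜) := inferInstanceAs (AddCommGroup (ℕ → 𝕜))
noncomputable instance : Module 𝕜 (Seq 𝕜) := inferInstanceAs (Module 𝕜 (ℕ → 𝕜))

variable {𝕜}

theorem bdd_of {y : ℕ → 𝕜} {C : ℝ} (h : ∀ n, sp n y ≤ C) :
    BddAbove (Set.range fun n => sp n y) := ⟨C, by rintro _ ⟨n, rfl⟩; exact h n⟩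

variable (𝕜)

/-- the space of all sequences with bounded seminorms -/
noncomputable def Big : Submodule 𝕜 (Seq 𝕜) where
  carrier := {y | BddAbove (Set.range fun n => sp n (y : ℕ → 𝕜))}
  add_mem' := by
    rintro y z ⟨C, hC⟩ ⟨D, hD⟩
    refine ⟨C + D, ?_⟩
    rintro _ ⟨n, rfl⟩
    exact (sp_add n _ _).trans (add_le_add (hC ⟨n, rfl⟩) (hD ⟨n, rfl⟩))
  zero_mem' := by
    refine ⟨0, ?_⟩
    rintro _ ⟨n, rfl⟩
    have h := sp_smul n (0 : 𝕜) (0 : ℕ → 𝕜)
    rw [norm_zero, zero_mul, zero_smul] at h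
    exact le_of_eq h
  smul_mem' := by
    rintro r y ⟨C, hC⟩
    refine ⟨‖r‖ * C, ?_⟩
    rintro _ ⟨n, rfl⟩
    have h := sp_smul n r (y : ℕ → 𝕜)
    have h2 : sp n (y : ℕ → 𝕜) ≤ C := hC ⟨n, rfl⟩
    calc sp n (r • (y : ℕ → 𝕜)) = ‖r‖ * sp n (y : ℕ → 𝕜) := h
      _ ≤ ‖r‖ * C := mul_le_mul_of_nonneg_left h2 (norm_nonneg r)

variable {𝕜}

/-- the underlying function -/
def bfn (y : Big 𝕜) : ℕ → 𝕜 := y.1

theorem bfn_add (y z : Big 𝕜) : bfn (y + z) = bfn y + bfn z := rfl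
theorem bfn_sub (y z : Big 𝕜) : bfn (y - z) = bfn y - bfn z := rfl
theorem bfn_smul (r : 𝕜) (y : Big 𝕜) : bfn (r • y) = r • bfn y := rfl
theorem bfn_zero : bfn (0 : Big 𝕜) = 0 := rfl
theorem big_ext {y z : Big 𝕜} (h : bfn y = bfn z) : y = z := Subtype.ext h

theorem big_bdd (y : Big 𝕜) : BddAbove (Set.range fun n => sp n (bfn y)) := y.2

/-- constructor -/
def bmk (y : ℕ → 𝕜) (h : BddAbove (Set.range fun n => sp n y)) : Big 𝕜 := ⟨y, h⟩

theorem bfn_mk (y : ℕ → 𝕜) (h : BddAbove (Set.range fun n => sp n y)) :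
    bfn (bmk y h) = y := rfl

noncomputable instance instNormBig : Norm (Big 𝕜) := ⟨fun y => ⨆ n, sp n (bfn y)⟩

theorem big_norm_def (y : Big 𝕜) : ‖y‖ = ⨆ n, sp n (bfn y) := rfl

theorem bsp_le (y : Big 𝕜) (n : ℕ) : sp n (bfn y) ≤ ‖y‖ := le_ciSup (big_bdd y) n

theorem bnorm_le (y : Big 𝕜) {C : ℝ} (h : ∀ n, sp n (bfn y) ≤ C) : ‖y‖ ≤ C := ciSup_le h

theorem bcoord_le (y : Big 𝕜) (k : ℕ) : ‖bfn y k‖ ≤ ‖y‖ :=
  (coord_le_succ k (bfn y)).trans (bsp_le y (k + 1))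

theorem big_core : NormedSpace.Core 𝕜 (Big 𝕜) where
  norm_nonneg y := (sp_nonneg 0 (bfn y)).trans (bsp_le y 0)
  norm_smul r y := by
    apply le_antisymm
    · apply bnorm_le
      intro n
      rw [bfn_smul, sp_smul]
      exact mul_le_mul_of_nonneg_left (bsp_le y n) (norm_nonneg r)
    · rw [big_norm_def y, Real.mul_iSup_of_nonneg (norm_nonneg r)]
      apply ciSup_le
      intro n
      rw [← sp_smul, ← bfn_smul]
      exact bsp_le _ n
  norm_triangle y z := by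
    apply bnorm_le
    intro n
    rw [bfn_add]
    exact (sp_add n _ _).trans (add_le_add (bsp_le y n) (bsp_le z n))
  norm_eq_zero_iff y := by
    constructor
    · intro h
      apply big_ext
      funext k
      have := bcoord_le y k
      rw [h] at this
      exact norm_le_zero_iff.mp this
    · rintro rfl
      apply le_antisymm
      · apply bnorm_le
        intro n
        have h := sp_smul n (0 : 𝕜) (0 : ℕ → 𝕜)
        rw [norm_zero, zero_mul, zero_smul] at h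
        exact le_of_eq h
      · exact (sp_nonneg 0 _).trans (bsp_le 0 0)

noncomputable instance instNACGBig : NormedAddCommGroup (Big 𝕜) :=
  NormedAddCommGroup.ofCore big_core

noncomputable instance instNSBig : NormedSpace 𝕜 (Big 𝕜) := NormedSpace.ofCore big_core

instance instCompleteBig : CompleteSpace (Big 𝕜) := by
  apply Metric.complete_of_cauchySeq_tendsto
  intro u hu
  -- coordinatewise limits
  have h1 : ∀ k, CauchySeq (fun i => bfn (u i) k) := by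
    intro k
    rw [Metric.cauchySeq_iff] at hu ⊢
    intro ε hε
    obtain ⟨N, hN⟩ := hu ε hε
    refine ⟨N, fun i hi j hj => ?_⟩
    have h2 := hN i hi j hj
    rw [dist_eq_norm] at h2 ⊢
    exact lt_of_le_of_lt (bcoord_le (u i - u j) k) h2
  have h3 : ∀ k, ∃ L, Tendsto (fun i => bfn (u i) k) atTop (𝓝 L) := fun k =>
    cauchySeq_tendsto_of_complete (h1 k)
  choose L hL using h3
  have hpi : Tendsto (fun i => bfn (u i)) atTop (𝓝 L) := tendsto_pi_nhds.mpr hL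
  have key : ∀ ε > 0, ∃ N, ∀ i ≥ N, ∀ n, sp n (bfn (u i) - L) ≤ ε := by
    intro ε hε
    rw [Metric.cauchySeq_iff] at hu
    obtain ⟨N, hN⟩ := hu ε hε
    refine ⟨N, fun i hi n => ?_⟩
    have h4 : Tendsto (fun j => sp n (bfn (u i) - bfn (u j))) atTop (𝓝 (sp n (bfn (u i) - L))) := by
      apply ((sp_continuous n).tendsto _).comp
      exact tendsto_const_nhds.sub hpi
    apply le_of_tendsto h4
    filter_upwards [eventually_ge_atTop N] with j hj
    have h5 := hN i hi j hj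
    rw [dist_eq_norm] at h5
    exact (bsp_le (u i - u j) n).trans h5.le
  obtain ⟨N, hN⟩ := key 1 one_pos
  have hbd : BddAbove (Set.range fun n => sp n L) := by
    refine ⟨‖u N‖ + 1, ?_⟩
    rintro _ ⟨n, rfl⟩
    have e1 : L = bfn (u N) + (-1 : 𝕜) • (bfn (u N) - L) := by
      funext k; simp
    show sp n L ≤ _
    calc sp n L = sp n (bfn (u N) + (-1 : 𝕜) • (bfn (u N) - L)) := by rw [← e1]
      _ ≤ sp n (bfn (u N)) + sp n ((-1 : 𝕜) • (bfn (u N) - L)) := sp_add _ _ _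
      _ = sp n (bfn (u N)) + sp n (bfn (u N) - L) := by rw [sp_smul]; simp
      _ ≤ ‖u N‖ + 1 := add_le_add (bsp_le (u N) n) (hN N le_rfl n)
  refine ⟨bmk L hbd, ?_⟩
  rw [Metric.tendsto_atTop]
  intro ε hε
  obtain ⟨N, hN⟩ := key (ε / 2) (by positivity)
  refine ⟨N, fun i hi => ?_⟩
  rw [dist_eq_norm]
  have : ‖u i - bmk L hbd‖ ≤ ε / 2 := bnorm_le _ (fun n => hN i hi n)
  linarith

variable (𝕜)

/-- finitely supported elements -/
noncomputable def Fin0 : Submodule 𝕜 (Big 𝕜) where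
  carrier := {y | ∃ m, ∀ k, m ≤ k → bfn y k = 0}
  add_mem' := by
    rintro y z ⟨m, hm⟩ ⟨n, hn⟩
    refine ⟨max m n, fun k hk => ?_⟩
    rw [bfn_add, Pi.add_apply, hm k (le_of_max_le_left hk), hn k (le_of_max_le_right hk),
      add_zero]
  zero_mem' := ⟨0, fun k _ => rfl⟩
  smul_mem' := by
    rintro r y ⟨m, hm⟩
    refine ⟨m, fun k hk => ?_⟩
    rw [bfn_smul, Pi.smul_apply, hm k hk, smul_zero]

/-- the target space: closure of the finitely supported sequences -/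
noncomputable def YM : Submodule 𝕜 (Big 𝕜) := (Fin0 𝕜).topologicalClosure

/-- the target space -/
def YY : Type := ↥(YM 𝕜)

noncomputable instance instNACGYY : NormedAddCommGroup (YY 𝕜) :=
  inferInstanceAs (NormedAddCommGroup ↥(YM 𝕜))

noncomputable instance instNSYY : NormedSpace 𝕜 (YY 𝕜) :=
  inferInstanceAs (NormedSpace 𝕜 ↥(YM 𝕜))

instance instCompleteYY : CompleteSpace (YY 𝕜) :=
  Submodule.topologicalClosure.completeSpace (Fin0 𝕜)

variable {𝕜}

/-- underlying sequence of an element of `YY` -/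
def fn (y : YY 𝕜) : ℕ → 𝕜 := bfn y.1

theorem fn_add (y z : YY 𝕜) : fn (y + z) = fn y + fn z := rfl
theorem fn_sub (y z : YY 𝕜) : fn (y - z) = fn y - fn z := rfl
theorem fn_smul (r : 𝕜) (y : YY 𝕜) : fn (r • y) = r • fn y := rfl
theorem fn_zero : fn (0 : YY 𝕜) = 0 := rfl
theorem fn_ext {y z : YY 𝕜} (h : fn y = fn z) : y = z := Subtype.ext (big_ext h)

theorem sp_le_norm (y : YY 𝕜) (n : ℕ) : sp n (fn y) ≤ ‖y‖ := bsp_le y.1 n
theorem norm_le_of_sp (y : YY 𝕜) {C : ℝ} (h : ∀ n, sp n (fn y) ≤ C) : ‖y‖ ≤ C :=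
  bnorm_le y.1 h
theorem coord_le_norm (y : YY 𝕜) (k : ℕ) : ‖fn y k‖ ≤ ‖y‖ := bcoord_le y.1 k

theorem exists_sp_gt (y : YY 𝕜) {C : ℝ} (h : C < ‖y‖) : ∃ n, C < sp n (fn y) :=
  exists_lt_of_lt_ciSup h

/-- build an element of `YY` from a finitely supported sequence -/
noncomputable def mkFin (m : ℕ) (y : ℕ → 𝕜) (h : ∀ k, m ≤ k → y k = 0) : YY 𝕜 :=
  ⟨bmk y (bdd_of (sp_le_of_zero y h)),
    Submodule.le_topologicalClosure _ ⟨m, h⟩⟩

theorem fn_mkFin (m : ℕ) (y : ℕ → 𝕜) (h : ∀ k, m ≤ k → y k = 0) : fn (mkFin m y h) = y := rfl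

theorem norm_of_fin (y : YY 𝕜) (m : ℕ) (h : ∀ k, m ≤ k → fn y k = 0) : ‖y‖ = sp m (fn y) := by
  apply le_antisymm
  · exact norm_le_of_sp y (sp_le_of_zero _ h)
  · exact sp_le_norm y m

/-- build an element of `YY` from a sequence approximable by its truncations -/
theorem exists_mk (y : ℕ → 𝕜) {C : ℝ} (hC : ∀ n, sp n y ≤ C)
    (h : ∀ ε > 0, ∃ m, ∀ n, sp n (y - trunc m y) ≤ ε) : ∃ z : YY 𝕜, fn z = y := by
  refine ⟨⟨bmk y (bdd_of hC), ?_⟩, rfl⟩
  show bmk y (bdd_of hC) ∈ closure ((Fin0 𝕜 : Submodule 𝕜 (Big 𝕜)) : Set (Big 𝕜))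
  rw [Metric.mem_closure_iff]
  intro ε hε
  obtain ⟨m, hm⟩ := h (ε / 2) (by positivity)
  have hz : ∀ k, m ≤ k → trunc m y k = 0 := fun k hk => by simp [trunc, not_lt.mpr hk]
  refine ⟨bmk (trunc m y) (bdd_of (sp_le_of_zero _ hz)), ⟨m, hz⟩, ?_⟩
  rw [dist_eq_norm]
  have : ‖bmk y (bdd_of hC) - bmk (trunc m y) (bdd_of (sp_le_of_zero _ hz))‖ ≤ ε / 2 :=
    bnorm_le _ (fun n => hm n)
  linarith

theorem trunc_zero_of_le (m : ℕ) (y : ℕ → 𝕜) : ∀ k, m ≤ k → trunc m y k = 0 :=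
  fun k hk => by simp [trunc, not_lt.mpr hk]

/-- the projection on the first `m` coordinates -/
noncomputable def QQ (m : ℕ) : YY 𝕜 →L[𝕜] YY 𝕜 :=
  LinearMap.mkContinuous
    { toFun := fun y => mkFin m (trunc m (fn y)) (trunc_zero_of_le m _)
      map_add' := fun y z => fn_ext (by
        rw [fn_mkFin, fn_add, fn_add, fn_mkFin, fn_mkFin, trunc_add])
      map_smul' := fun r y => fn_ext (by
        rw [fn_mkFin, fn_smul, RingHom.id_apply, fn_smul, fn_mkFin, trunc_smul]) }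
    1 (fun y => by
      rw [one_mul]
      apply norm_le_of_sp
      intro n
      exact (sp_trunc_le m n _).trans (sp_le_norm y m))

theorem fn_QQ (m : ℕ) (y : YY 𝕜) : fn (QQ m y) = trunc m (fn y) := rfl

theorem norm_QQ_le (m : ℕ) : ‖(QQ m : YY 𝕜 →L[𝕜] YY 𝕜)‖ ≤ 1 :=
  LinearMap.mkContinuous_norm_le _ zero_le_one _

theorem norm_QQ_apply (m : ℕ) (y : YY 𝕜) : ‖QQ m y‖ = sp m (fn y) := by
  rw [norm_of_fin (QQ m y) m (by rw [fn_QQ]; exact trunc_zero_of_le m _), fn_QQ,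
    sp_trunc_of_le le_rfl]

theorem norm_QQ_apply_le (m : ℕ) (y : YY 𝕜) : ‖QQ m y‖ ≤ ‖y‖ := by
  rw [norm_QQ_apply]; exact sp_le_norm y m

theorem QQ_tendsto (y : YY 𝕜) : Tendsto (fun m => QQ m y) atTop (𝓝 y) := by
  rw [Metric.tendsto_atTop]
  intro ε hε
  have hy : (y.1 : Big 𝕜) ∈ closure ((Fin0 𝕜 : Submodule 𝕜 (Big 𝕜)) : Set (Big 𝕜)) := y.2
  rw [Metric.mem_closure_iff] at hy
  obtain ⟨z, ⟨N, hN⟩, hz⟩ := hy (ε / 2) (by positivity)
  refine ⟨N, fun m hm => ?_⟩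
  set z' : YY 𝕜 := mkFin N (bfn z) hN with hz'
  have e1 : QQ m z' = z' := by
    apply fn_ext
    rw [fn_QQ]
    funext k
    by_cases hk : k < m
    · simp [trunc, hk]
    · have : fn z' k = 0 := hN k (hm.trans (not_lt.mp hk))
      simp [trunc, hk, this]
  have e2 : ‖y - z'‖ < ε / 2 := by
    have : ‖(y.1 : Big 𝕜) - z‖ < ε / 2 := by rwa [dist_eq_norm] at hz
    exact this
  have e3 : QQ m y - y = QQ m (y - z') - (y - z') := by
    rw [map_sub, e1]; abel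
  rw [dist_eq_norm, e3]
  calc ‖QQ m (y - z') - (y - z')‖ ≤ ‖QQ m (y - z')‖ + ‖y - z'‖ := norm_sub_le _ _
    _ ≤ ‖y - z'‖ + ‖y - z'‖ := by gcongr; exact norm_QQ_apply_le m _
    _ < ε := by linarith

theorem coord_tendsto (y : YY 𝕜) : Tendsto (fun k => fn y k) atTop (𝓝 0) := by
  have h := QQ_tendsto y
  rw [Metric.tendsto_atTop] at h ⊢
  intro ε hε
  obtain ⟨N, hN⟩ := h ε hε
  refine ⟨N, fun k hk => ?_⟩
  have h1 := hN k hk
  rw [dist_eq_norm] at h1
  have h2 := coord_le_norm (QQ k y - y) k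
  rw [fn_sub, fn_QQ, Pi.sub_apply] at h2
  have h3 : trunc k (fn y) k = 0 := trunc_zero_of_le k _ k le_rfl
  rw [h3, zero_sub, norm_neg] at h2
  rw [dist_zero_right]
  exact lt_of_le_of_lt h2 h1

/-- coordinate functionals -/
noncomputable def coordL (k : ℕ) : YY 𝕜 →L[𝕜] 𝕜 :=
  LinearMap.mkContinuous
    { toFun := fun y => fn y k
      map_add' := fun _ _ => rfl
      map_smul' := fun _ _ => rfl } 1 (fun y => by rw [one_mul]; exact coord_le_norm y k)

theorem coordL_apply (k : ℕ) (y : YY 𝕜) : coordL k y = fn y k := rfl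

end Pool.Agent.H281.A54
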